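import Pool.Agent.U559.CP.SS

/-!
# Compact perturbations of the identity in Hilbert spaces
-/

set_option autoImplicit false
set_option linter.unusedSectionVars false
set_option linter.style.haveILetI false

namespace Pool.Agent.U559.CP

open Filter Topology Pool.H590R3.Ab Pool.Agent.W687.Rot
open scoped RealInnerProductSpace

variable {E : Type*} [NormedAddCommGroup E] [NormedSpace ℝ E] {H : Type*} [NormedAddCommGroup H]
  [InnerProductSpace ℝ H] (Φ : E ≃ₗᵢ[ℝ] H)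

/-- the rank-one projection -/
noncomputable def Pa (a : E) : E →L[ℝ] E :=
  ((innerSL ℝ (Φ a)).comp (Φ.toContinuousLinearEquiv : E →L[ℝ] H)).smulRight a

lemma Pa_apply (a z : E) : Pa Φ a z = ⟪Φ a, Φ z⟫ • a := rfl

lemma Pa_idem {a : E} (ha : ‖a‖ = 1) (z : E) : Pa Φ a (Pa Φ a z) = Pa Φ a z := by
  rw [Pa_apply, Pa_apply, map_smul, inner_smul_right, real_inner_self_eq_norm_sq, Φ.norm_map, ha]
  norm_num

lemma Pa_refl {a : E} (ha : ‖a‖ = 1) (z : E) : ‖z - (2 : ℝ) • Pa Φ a z‖ = ‖z‖ := by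
  rw [← Φ.norm_map (z - (2 : ℝ) • Pa Φ a z), ← Φ.norm_map z, Pa_apply, map_sub, map_smul, map_smul]
  rw [← sq_eq_sq₀ (norm_nonneg _) (norm_nonneg _), norm_sub_sq_real, norm_smul, norm_smul,
    Φ.norm_map a, ha, inner_smul_right, inner_smul_right, real_inner_comm (Φ a) (Φ z),
    Real.norm_eq_abs, Real.norm_eq_abs, mul_one, mul_pow, sq_abs, sq_abs]
  ring

/-- the reflection -/
noncomputable def Ra {a : E} (ha : ‖a‖ = 1) : E ≃ₗᵢ[ℝ] E := rfx (Pa Φ a) (Pa_idem Φ ha) (Pa_refl Φ ha)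

lemma Ra_apply {a : E} (ha : ‖a‖ = 1) (z : E) : Ra Φ ha z = z - (2 : ℝ) • Pa Φ a z := rfl

lemma Ra_Ra {a : E} (ha : ‖a‖ = 1) (z : E) : Ra Φ ha (Ra Φ ha z) = z :=
  DFunLike.congr_fun (rfx_sq (Pa Φ a) (Pa_idem Φ ha) (Pa_refl Φ ha)) z

lemma Ra_self {a : E} (ha : ‖a‖ = 1) : Ra Φ ha a = -a := by
  rw [Ra_apply, Pa_apply, real_inner_self_eq_norm_sq, Φ.norm_map, ha]
  module

lemma Pa_cpt (a : E) : IsCompactOperator (Pa Φ a) := by
  apply cpt_of_fd
  have hle : LinearMap.range (Pa Φ a : E →ₗ[ℝ] E) ≤ Submodule.span ℝ {a} := by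
    rintro _ ⟨z, rfl⟩
    exact Submodule.smul_mem _ _ (Submodule.mem_span_singleton_self a)
  exact Submodule.finiteDimensional_of_le hle

include Φ in
/-- reflections are strictly singular perturbations of the identity -/
lemma hil_ss [Nontrivial E] : ∃ S T : E ≃ₗᵢ[ℝ] E, S ≠ T ∧ SSg (fun z => S z - T z) := by
  obtain ⟨a, ha⟩ : ∃ a : E, ‖a‖ = 1 := exists_norm_eq E zero_le_one
  refine ⟨Ra Φ ha, 1, ?_, ?_⟩
  · intro h
    have h1 := Ra_self Φ ha
    rw [h] at h1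
    have h2 : a = -a := h1
    have h3 : a = 0 := by
      have h4 : (2 : ℝ) • a = 0 := by
        calc (2 : ℝ) • a = a - (-a) := by module
          _ = 0 := by rw [← h2, sub_self]
      exact (smul_eq_zero.1 h4).resolve_left two_ne_zero
    rw [h3, norm_zero] at ha
    exact zero_ne_one ha
  · intro W hW ε hε
    obtain ⟨w, hw, hw0, hwa⟩ : ∃ w ∈ W, w ≠ 0 ∧ ⟪Φ a, Φ w⟫ = 0 := by
      by_contra hcon
      push Not at hcon
      apply hW
      let φ : W →ₗ[ℝ] ℝ :=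
        (((innerSL ℝ (Φ a)).comp (Φ.toContinuousLinearEquiv : E →L[ℝ] H)) : E →ₗ[ℝ] ℝ).comp W.subtype
      have hφ : Function.Injective φ := by
        rw [← LinearMap.ker_eq_bot, LinearMap.ker_eq_bot']
        rintro ⟨w, hw⟩ h
        by_contra hne
        exact hcon w hw (fun h0 => hne (Subtype.ext h0)) h
      exact FiniteDimensional.of_injective φ hφ
    have hwn : ‖w‖ ≠ 0 := norm_ne_zero_iff.2 hw0
    refine ⟨‖w‖⁻¹ • w, W.smul_mem _ hw, ?_, ?_⟩
    · rw [norm_smul, norm_inv, norm_norm, inv_mul_cancel₀ hwn]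
    · show ‖Ra Φ ha (‖w‖⁻¹ • w) - ‖w‖⁻¹ • w‖ < ε
      rw [Ra_apply, Pa_apply, map_smul, inner_smul_right, hwa, mul_zero, zero_smul, smul_zero,
        sub_zero, sub_self, norm_zero]
      exact hε

include Φ in
/-- reflections are compact perturbations of the identity -/
lemma hil_cpt [Nontrivial E] : ∃ S T : E ≃ₗᵢ[ℝ] E, S ≠ T ∧ IsCompactOperator (fun z => S z - T z) := by
  obtain ⟨a, ha⟩ : ∃ a : E, ‖a‖ = 1 := exists_norm_eq E zero_le_one
  refine ⟨Ra Φ ha, 1, ?_, ?_⟩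
  · intro h
    have h1 := Ra_self Φ ha
    rw [h] at h1
    have h2 : a = -a := h1
    have h3 : a = 0 := by
      have h4 : (2 : ℝ) • a = 0 := by
        calc (2 : ℝ) • a = a - (-a) := by module
          _ = 0 := by rw [← h2, sub_self]
      exact (smul_eq_zero.1 h4).resolve_left two_ne_zero
    rw [h3, norm_zero] at ha
    exact zero_ne_one ha
  · have h1 : IsCompactOperator ((-2 : ℝ) • Pa Φ a : E →L[ℝ] E) := (Pa_cpt Φ a).smul (-2 : ℝ)
    have h2 : (fun z => Ra Φ ha z - (1 : E ≃ₗᵢ[ℝ] E) z) = ((-2 : ℝ) • Pa Φ a : E →L[ℝ] E) := by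
      funext z
      show Ra Φ ha z - z = (-2 : ℝ) • Pa Φ a z
      rw [Ra_apply]
      module
    rw [h2]
    exact h1

include Φ in
/-- small compact perturbations of the identity -/
lemma hil_small (hE : ¬ FiniteDimensional ℝ E) {ε : ℝ} (hε : 0 < ε) :
    ∃ T : E ≃ₗᵢ[ℝ] E, T ≠ 1 ∧ IsCompactOperator (fun z => T z - z) ∧ ∀ z, ‖T z - z‖ ≤ ε * ‖z‖ := by
  haveI : Nontrivial E := Pool.Agent.TH596.RO.nontriv hE
  obtain ⟨a, ha⟩ : ∃ a : E, ‖a‖ = 1 := exists_norm_eq E zero_le_one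
  obtain ⟨v, hv⟩ : ∃ v : E, v ∉ Submodule.span ℝ {a} := by
    by_contra hcon
    push Not at hcon
    apply hE
    have : (⊤ : Submodule ℝ E) = Submodule.span ℝ {a} := by
      symm
      rw [Submodule.eq_top_iff']
      exact hcon
    have h2 : FiniteDimensional ℝ (⊤ : Submodule ℝ E) := by
      rw [this]
      infer_instance
    exact Module.finite_def.2 (by
      have := Module.finite_def.1 h2
      exact (Submodule.fg_top (⊤ : Submodule ℝ E)).1 this)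
  have hne : ∀ t : ℝ, a + t • v ≠ 0 := by
    intro t ht
    by_cases h0 : t = 0
    · rw [h0, zero_smul, add_zero] at ht
      rw [ht, norm_zero] at ha
      exact zero_ne_one ha
    · apply hv
      have h1 : v = (-t⁻¹) • a := by
        have h2 : t • v = -a := by
          rw [eq_neg_iff_add_eq_zero, add_comm]
          exact ht
        calc v = t⁻¹ • (t • v) := by rw [smul_smul, inv_mul_cancel₀ h0, one_smul]
          _ = _ := by rw [h2, smul_neg, neg_smul]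
      rw [h1]
      exact Submodule.smul_mem _ _ (Submodule.mem_span_singleton_self a)
  have hlim : Tendsto (fun t : ℝ => ‖a - ‖a + t • v‖⁻¹ • (a + t • v)‖) (𝓝 0) (𝓝 0) := by
    have hc : ContinuousAt (fun t : ℝ => ‖a - ‖a + t • v‖⁻¹ • (a + t • v)‖) 0 := by
      have h1 : ContinuousAt (fun t : ℝ => a + t • v) 0 := by fun_prop
      have h2 : ContinuousAt (fun t : ℝ => ‖a + t • v‖⁻¹) 0 :=
        h1.norm.inv₀ (norm_ne_zero_iff.2 (hne 0))
      exact (continuousAt_const.sub (h2.smul h1)).norm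
    have h3 := hc.tendsto
    simp only [zero_smul, add_zero, ha, inv_one, one_smul, sub_self, norm_zero] at h3
    exact h3
  obtain ⟨t, ht1, ht0⟩ : ∃ t : ℝ, ‖a - ‖a + t • v‖⁻¹ • (a + t • v)‖ < ε / 4 ∧ t ≠ 0 := by
    have h1 : ∀ᶠ t in 𝓝[≠] (0 : ℝ), ‖a - ‖a + t • v‖⁻¹ • (a + t • v)‖ < ε / 4 :=
      (hlim.eventually (gt_mem_nhds (by positivity))).filter_mono nhdsWithin_le_nhds
    obtain ⟨t, h2, h3⟩ := (h1.and self_mem_nhdsWithin).exists
    exact ⟨t, h2, h3⟩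
  have hnn : ‖a + t • v‖ ≠ 0 := norm_ne_zero_iff.2 (hne t)
  obtain ⟨c, hcd⟩ : ∃ c : E, c = ‖a + t • v‖⁻¹ • (a + t • v) := ⟨_, rfl⟩
  rw [← hcd] at ht1
  have hc1 : ‖c‖ = 1 := by rw [hcd, norm_smul, norm_inv, norm_norm, inv_mul_cancel₀ hnn]
  have hca : c ∉ Submodule.span ℝ {a} := by
    intro h
    apply hv
    have h1 : a + t • v = ‖a + t • v‖ • c := by
      rw [hcd, smul_smul, mul_inv_cancel₀ hnn, one_smul]
    have h2 : v = t⁻¹ • (‖a + t • v‖ • c - a) := by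
      rw [← h1, add_sub_cancel_left, smul_smul, inv_mul_cancel₀ ht0, one_smul]
    rw [h2]
    exact Submodule.smul_mem _ _ (Submodule.sub_mem _ (Submodule.smul_mem _ _ h)
      (Submodule.mem_span_singleton_self a))
  refine ⟨Ra Φ ha * Ra Φ hc1, ?_, ?_, ?_⟩
  · intro h
    have h1 : Ra Φ ha (Ra Φ hc1 c) = c := DFunLike.congr_fun h c
    rw [Ra_self, map_neg, Ra_apply, Pa_apply] at h1
    apply hca
    have h2 : c = ⟪Φ a, Φ c⟫ • a := by
      have h3 : (2 : ℝ) • (c - ⟪Φ a, Φ c⟫ • a) = 0 := by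
        calc (2 : ℝ) • (c - ⟪Φ a, Φ c⟫ • a) = c - (-(c - (2 : ℝ) • ⟪Φ a, Φ c⟫ • a)) := by module
          _ = 0 := by rw [h1, sub_self]
      have h4 := (smul_eq_zero.1 h3).resolve_left two_ne_zero
      exact sub_eq_zero.1 h4
    rw [h2]
    exact Submodule.smul_mem _ _ (Submodule.mem_span_singleton_self a)
  · have h1 : IsCompactOperator ((-2 : ℝ) • Pa Φ c : E →L[ℝ] E) := (Pa_cpt Φ c).smul (-2 : ℝ)
    have h2 : IsCompactOperator ((-2 : ℝ) • Pa Φ a : E →L[ℝ] E) := (Pa_cpt Φ a).smul (-2 : ℝ)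
    have h3 := h2.comp_clm (op (Ra Φ hc1))
    have h4 : (fun z => (Ra Φ ha * Ra Φ hc1) z - z) =
        (((-2 : ℝ) • Pa Φ a : E →L[ℝ] E) ∘ (op (Ra Φ hc1))) + ((-2 : ℝ) • Pa Φ c : E →L[ℝ] E) := by
      funext z
      show Ra Φ ha (Ra Φ hc1 z) - z = (-2 : ℝ) • Pa Φ a (Ra Φ hc1 z) + (-2 : ℝ) • Pa Φ c z
      rw [Ra_apply Φ ha, Ra_apply Φ hc1]
      module
    rw [h4]
    exact h3.add h1
  · intro z
    have h1 : (Ra Φ ha * Ra Φ hc1) z - z = Ra Φ ha (Ra Φ hc1 z) - Ra Φ hc1 (Ra Φ hc1 z) := by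
      rw [Ra_Ra]
      rfl
    set y := Ra Φ hc1 z with hy
    have hyn : ‖y‖ = ‖z‖ := (Ra Φ hc1).norm_map z
    rw [h1, ← hyn]
    have h2 : Ra Φ ha y - Ra Φ hc1 y =
        (-2 : ℝ) • (⟪Φ (a - c), Φ y⟫ • a) + (-2 : ℝ) • (⟪Φ c, Φ y⟫ • (a - c)) := by
      rw [Ra_apply, Ra_apply, Pa_apply, Pa_apply, map_sub, inner_sub_left]
      module
    have h3 : |⟪Φ (a - c), Φ y⟫| ≤ ‖a - c‖ * ‖y‖ := by
      have := abs_real_inner_le_norm (Φ (a - c)) (Φ y)
      rwa [Φ.norm_map, Φ.norm_map] at this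
    have h4 : |⟪Φ c, Φ y⟫| ≤ ‖y‖ := by
      have := abs_real_inner_le_norm (Φ c) (Φ y)
      rwa [Φ.norm_map, Φ.norm_map, hc1, one_mul] at this
    rw [h2]
    refine (norm_add_le _ _).trans ?_
    rw [norm_smul, norm_smul, norm_smul, norm_smul, ha, norm_neg, Real.norm_eq_abs 2,
      Real.norm_eq_abs, Real.norm_eq_abs, abs_of_pos (by norm_num : (0:ℝ) < 2), mul_one]
    have h5 : |⟪Φ c, Φ y⟫| * ‖a - c‖ ≤ ‖y‖ * ‖a - c‖ :=
      mul_le_mul_of_nonneg_right h4 (norm_nonneg _)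
    have h6 : ‖a - c‖ * ‖y‖ ≤ ε / 4 * ‖y‖ := mul_le_mul_of_nonneg_right ht1.le (norm_nonneg _)
    linarith

end Pool.Agent.U559.CP
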