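import Mathlib
import Pool.Agent.H826R2.Wein.InvInner

/-!
# The algebra generated by the isometries which are finite-rank perturbations of the identity
-/

set_option autoImplicit false
set_option linter.unusedSectionVars false
set_option linter.style.haveILetI false

namespace Pool.Agent.U559.CP

open Pool.Agent.H826R2.Wein

variable {Y : Type*} [NormedAddCommGroup Y] [NormedSpace ℝ Y]

/-- `g - 1` maps into `V` -/
def Cv (V : Submodule ℝ Y) (g : Y ≃ₗᵢ[ℝ] Y) : Prop := ∀ x, g x - x ∈ V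

lemma Cv.maps {V : Submodule ℝ Y} {g : Y ≃ₗᵢ[ℝ] Y} (h : Cv V g) {x : Y} (hx : x ∈ V) :
    g x ∈ V := by
  have := V.add_mem (h x) hx
  rwa [sub_add_cancel] at this

lemma Cv.inv {V : Submodule ℝ Y} {g : Y ≃ₗᵢ[ℝ] Y} (h : Cv V g) : Cv V g⁻¹ := by
  intro x
  have h1 := V.neg_mem (h (g⁻¹ x))
  have h2 : g (g⁻¹ x) = x := g.apply_symm_apply x
  rw [h2, neg_sub] at h1
  exact h1

lemma Cv.mono {V W : Submodule ℝ Y} (hVW : V ≤ W) {g : Y ≃ₗᵢ[ℝ] Y} (h : Cv V g) : Cv W g :=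
  fun x => hVW (h x)

/-- a finite-rank perturbation of the identity -/
def Fr (g : Y ≃ₗᵢ[ℝ] Y) : Prop := ∃ V : Submodule ℝ Y, FiniteDimensional ℝ V ∧ Cv V g

lemma Fr.inv {g : Y ≃ₗᵢ[ℝ] Y} (h : Fr g) : Fr g⁻¹ := by
  obtain ⟨V, h1, h2⟩ := h
  exact ⟨V, h1, h2.inv⟩

lemma Fr.conj {g : Y ≃ₗᵢ[ℝ] Y} (h : Fr g) (S : Y ≃ₗᵢ[ℝ] Y) : Fr (S * g * S⁻¹) := by
  obtain ⟨V, h1, h2⟩ := h
  refine ⟨V.map (S.toLinearEquiv : Y →ₗ[ℝ] Y), inferInstance, fun x => ?_⟩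
  refine ⟨g (S⁻¹ x) - S⁻¹ x, h2 _, ?_⟩
  show S (g (S⁻¹ x) - S⁻¹ x) = S (g (S⁻¹ x)) - x
  rw [map_sub]
  congr 1
  exact S.apply_symm_apply x

lemma exists_form (V : Submodule ℝ Y) [FiniteDimensional ℝ V] :
    ∃ b : Y →ₗ[ℝ] Y →ₗ[ℝ] ℝ, (∀ x y, b x y = b y x) ∧ (∀ x, 0 ≤ b x x) ∧
      (∀ x ∈ V, x ≠ 0 → 0 < b x x) ∧
      (∀ g, Cv V g → ∀ x ∈ V, ∀ y ∈ V, b (g x) (g y) = b x y) := by
  obtain ⟨p, hp⟩ := V.subtype.exists_leftInverse_of_injective (by simp)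
  have hp' : ∀ v : V, p v = v := fun v => LinearMap.congr_fun hp v
  have hp2 : ∀ (x : Y) (hx : x ∈ V), p x = ⟨x, hx⟩ := fun x hx => hp' ⟨x, hx⟩
  have hc : ∀ x y, (Qlin V).compl₁₂ p p x y = Qlin V (p x) (p y) := fun x y => rfl
  refine ⟨(Qlin V).compl₁₂ p p, fun x y => ?_, fun x => ?_, fun x hx hx0 => ?_,
    fun g hg x hx y hy => ?_⟩
  · rw [hc, hc]
    exact Qlin_symm _ _
  · rw [hc]
    by_cases h : p x = 0
    · rw [h]; simp
    · exact (Qlin_pos h).le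
  · rw [hc, hp2 x hx]
    apply Qlin_pos
    intro h
    exact hx0 (congrArg Subtype.val h)
  · rw [hc, hc, hp2 x hx, hp2 y hy, hp2 _ (hg.maps hx), hp2 _ (hg.maps hy)]
    let A0 : V ≃ₗ[ℝ] V :=
      { toFun := fun v => ⟨g v, hg.maps v.2⟩
        invFun := fun v => ⟨g⁻¹ v, hg.inv.maps v.2⟩
        map_add' := fun u v => Subtype.ext (map_add g _ _)
        map_smul' := fun r v => Subtype.ext (map_smul g _ _)
        left_inv := fun v => Subtype.ext (g.symm_apply_apply _)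
        right_inv := fun v => Subtype.ext (g.apply_symm_apply _) }
    exact Qlin_invariant A0.toContinuousLinearEquiv (fun v => g.norm_map v) ⟨x, hx⟩ ⟨y, hy⟩

/-- the finite-dimensional subspaces -/
abbrev FD (Y : Type*) [NormedAddCommGroup Y] [NormedSpace ℝ Y] :=
  {V : Submodule ℝ Y // FiniteDimensional ℝ V}

/-- the canonical forms -/
noncomputable def be (V : FD Y) : Y →ₗ[ℝ] Y →ₗ[ℝ] ℝ :=
  haveI := V.2
  (exists_form V.1).choose

lemma be_spec (V : FD Y) : (∀ x y, be V x y = be V y x) ∧ (∀ x, 0 ≤ be V x x) ∧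
      (∀ x ∈ V.1, x ≠ 0 → 0 < be V x x) ∧
      (∀ g, Cv V.1 g → ∀ x ∈ V.1, ∀ y ∈ V.1, be V (g x) (g y) = be V x y) :=
  haveI := V.2
  (exists_form V.1).choose_spec

/-- the linear map of an isometry -/
def Lg (g : Y ≃ₗᵢ[ℝ] Y) : Module.End ℝ Y := (g.toLinearEquiv : Y →ₗ[ℝ] Y)

lemma Lg_apply (g : Y ≃ₗᵢ[ℝ] Y) (x : Y) : Lg g x = g x := rfl

/-- the algebra -/
def AA (Y : Type*) [NormedAddCommGroup Y] [NormedSpace ℝ Y] : Subalgebra ℝ (Module.End ℝ Y) :=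
  Algebra.adjoin ℝ {f | ∃ g : Y ≃ₗᵢ[ℝ] Y, Fr g ∧ f = Lg g}

lemma Lg_mem {g : Y ≃ₗᵢ[ℝ] Y} (hg : Fr g) : Lg g ∈ AA Y :=
  Algebra.subset_adjoin ⟨g, hg, rfl⟩

/-- conjugation -/
def cE (S : Y ≃ₗᵢ[ℝ] Y) (a : Module.End ℝ Y) : Module.End ℝ Y := Lg S * a * Lg S⁻¹

lemma cE_apply (S : Y ≃ₗᵢ[ℝ] Y) (a : Module.End ℝ Y) (x : Y) : cE S a x = S (a (S⁻¹ x)) := rfl

lemma cE_apply' (S : Y ≃ₗᵢ[ℝ] Y) (a : Module.End ℝ Y) (x : Y) : cE S a (S x) = S (a x) := by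
  rw [cE_apply]
  congr 2
  exact S.symm_apply_apply x

lemma cE_mem (S : Y ≃ₗᵢ[ℝ] Y) {a : Module.End ℝ Y} (ha : a ∈ AA Y) : cE S a ∈ AA Y := by
  have hSS : Lg S⁻¹ * Lg S = (1 : Module.End ℝ Y) := by
    ext x
    exact S.symm_apply_apply x
  have hSS' : Lg S * Lg S⁻¹ = (1 : Module.End ℝ Y) := by
    ext x
    exact S.apply_symm_apply x
  induction ha using Algebra.adjoin_induction with
  | mem f hf =>
    obtain ⟨g, hg, rfl⟩ := hf
    exact Lg_mem (hg.conj S)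
  | algebraMap r =>
    have : cE S (algebraMap ℝ (Module.End ℝ Y) r) = algebraMap ℝ _ r := by
      unfold cE
      rw [← Algebra.commutes, mul_assoc, hSS', mul_one]
    rw [this]
    exact (AA Y).algebraMap_mem r
  | add f g _ _ hf hg =>
    have : cE S (f + g) = cE S f + cE S g := by
      unfold cE
      rw [mul_add, add_mul]
    rw [this]
    exact (AA Y).add_mem hf hg
  | mul f g _ _ hf hg =>
    have : cE S (f * g) = cE S f * cE S g := by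
      unfold cE
      calc Lg S * (f * g) * Lg S⁻¹ = Lg S * f * 1 * g * Lg S⁻¹ := by simp only [mul_one, mul_assoc]
        _ = _ := by rw [← hSS]; simp only [mul_assoc]
    rw [this]
    exact (AA Y).mul_mem hf hg

/-- adjoints and bounds -/
lemma adj {a : Module.End ℝ Y} (ha : a ∈ AA Y) : ∃ a' ∈ AA Y, ∃ V0 : FD Y, ∃ K : ℝ, 0 ≤ K ∧
    ∀ V : FD Y, V0 ≤ V → ∀ x ∈ V.1, a x ∈ V.1 ∧ a' x ∈ V.1 ∧ be V (a x) (a x) ≤ K * be V x x ∧
      ∀ y ∈ V.1, be V (a x) y = be V x (a' y) := by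
  induction ha using Algebra.adjoin_induction with
  | mem f hf =>
    obtain ⟨g, hg, rfl⟩ := hf
    refine ⟨Lg g⁻¹, Lg_mem hg.inv, ?_⟩
    obtain ⟨V0, h1, h2⟩ := hg
    refine ⟨⟨V0, h1⟩, 1, zero_le_one, fun V hV x hx => ?_⟩
    have hgV : Cv V.1 g := h2.mono hV
    refine ⟨hgV.maps hx, hgV.inv.maps hx, ?_, fun y hy => ?_⟩
    · rw [one_mul]
      exact ((be_spec V).2.2.2 g hgV x hx x hx).le
    · have h3 := (be_spec V).2.2.2 g hgV x hx (g⁻¹ y) (hgV.inv.maps hy)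
      have h4 : g (g⁻¹ y) = y := g.apply_symm_apply y
      rw [h4] at h3
      exact h3
  | algebraMap r =>
    refine ⟨_, (AA Y).algebraMap_mem r, ⟨⊥, inferInstance⟩, r ^ 2, sq_nonneg r, fun V _ x hx => ?_⟩
    have h1 : ∀ x : Y, algebraMap ℝ (Module.End ℝ Y) r x = r • x := fun x => rfl
    refine ⟨V.1.smul_mem r hx, V.1.smul_mem r hx, ?_, fun y _ => ?_⟩
    · rw [h1, map_smul, map_smul, LinearMap.smul_apply, smul_eq_mul, smul_eq_mul]
      apply le_of_eq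
      ring
    · rw [h1, h1, map_smul, map_smul, LinearMap.smul_apply]
  | add f g _ _ hf hg =>
    obtain ⟨f', hf', V1, K1, hK1, h1⟩ := hf
    obtain ⟨g', hg', V2, K2, hK2, h2⟩ := hg
    haveI := V1.2
    haveI := V2.2
    refine ⟨f' + g', (AA Y).add_mem hf' hg', ⟨V1.1 ⊔ V2.1, inferInstance⟩, 2 * K1 + 2 * K2,
      by positivity, fun V hV x hx => ?_⟩
    obtain ⟨a1, a2, a3, a4⟩ := h1 V (le_trans (le_sup_left (a := V1.1) (b := V2.1)) hV) x hx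
    obtain ⟨b1, b2, b3, b4⟩ := h2 V (le_trans (le_sup_right (a := V1.1) (b := V2.1)) hV) x hx
    refine ⟨V.1.add_mem a1 b1, V.1.add_mem a2 b2, ?_, fun y hy => ?_⟩
    · have h3 := (be_spec V).2.1 (f x - g x)
      have h4 := (be_spec V).1 (f x) (g x)
      simp only [LinearMap.add_apply, map_add, map_sub, LinearMap.sub_apply] at h3 ⊢
      rw [h4] at h3 ⊢
      nlinarith
    · rw [LinearMap.add_apply, LinearMap.add_apply, map_add, map_add, LinearMap.add_apply, a4 y hy,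
        b4 y hy]
  | mul f g _ _ hf hg =>
    obtain ⟨f', hf', V1, K1, hK1, h1⟩ := hf
    obtain ⟨g', hg', V2, K2, hK2, h2⟩ := hg
    haveI := V1.2
    haveI := V2.2
    refine ⟨g' * f', (AA Y).mul_mem hg' hf', ⟨V1.1 ⊔ V2.1, inferInstance⟩, K1 * K2,
      by positivity, fun V hV x hx => ?_⟩
    have hV1 : V1 ≤ V := le_trans (le_sup_left (a := V1.1) (b := V2.1)) hV
    have hV2 : V2 ≤ V := le_trans (le_sup_right (a := V1.1) (b := V2.1)) hV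
    obtain ⟨b1, b2, b3, b4⟩ := h2 V hV2 x hx
    obtain ⟨a1, a2, a3, a4⟩ := h1 V hV1 (g x) b1
    obtain ⟨c1, c2, c3, c4⟩ := h1 V hV1 x hx
    obtain ⟨d1, d2, d3, d4⟩ := h2 V hV2 (f' x) c2
    refine ⟨a1, d2, ?_, fun y hy => ?_⟩
    · calc be V ((f * g) x) ((f * g) x) ≤ K1 * be V (g x) (g x) := a3
        _ ≤ K1 * (K2 * be V x x) := mul_le_mul_of_nonneg_left b3 hK1
        _ = _ := by ring
    · obtain ⟨e1, e2, e3, e4⟩ := h1 V hV1 y hy
      show be V (f (g x)) y = be V x (g' (f' y))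
      rw [a4 y hy, b4 _ e2]

/-- the algebra is semiprime -/
lemma semi {c : Module.End ℝ Y} (hc : c ∈ AA Y) (hc0 : c ≠ 0) : ∃ d ∈ AA Y, c * d * c ≠ 0 := by
  obtain ⟨v, hv⟩ : ∃ v, c v ≠ 0 := by
    by_contra hcon
    push Not at hcon
    exact hc0 (LinearMap.ext hcon)
  obtain ⟨d, hd, V0, K, hK, h⟩ := adj hc
  haveI := V0.2
  refine ⟨d, hd, fun h0 => ?_⟩
  let V : FD Y := ⟨V0.1 ⊔ Submodule.span ℝ {v}, inferInstance⟩
  have hV0 : V0 ≤ V := le_sup_left (a := V0.1) (b := Submodule.span ℝ {v})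
  have hvV : v ∈ V.1 :=
    (le_sup_right (a := V0.1) (b := Submodule.span ℝ {v})) (Submodule.mem_span_singleton_self v)
  obtain ⟨h1, h2, h3, h4⟩ := h V hV0 v hvV
  obtain ⟨i1, i2, i3, i4⟩ := h V hV0 (c v) h1
  obtain ⟨j1, j2, j3, j4⟩ := h V hV0 (d (c v)) i2
  have e1 : c (d (c v)) = 0 := LinearMap.congr_fun h0 v
  have e2 := j4 (c v) h1
  rw [e1, map_zero, LinearMap.zero_apply] at e2
  have e3 : d (c v) = 0 := by
    by_contra hne
    exact absurd e2 ((be_spec V).2.2.1 _ i2 hne).ne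
  have e4 := h4 (c v) h1
  rw [e3, map_zero] at e4
  exact absurd e4.symm ((be_spec V).2.2.1 _ h1 hv).ne

end Pool.Agent.U559.CP
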