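import Pool.Agent.U559.CP.Irr
import Pool.Agent.TH596.RO.Forms

/-!
# A transitive space with an isometry which is a finite-rank perturbation of the identity
-/

set_option autoImplicit false
set_option linter.unusedSectionVars false
set_option linter.style.haveILetI false

namespace Pool.Agent.U559.CP

open Filter Topology

variable {Y : Type*} [NormedAddCommGroup Y] [NormedSpace ℝ Y]

instance : IsDirectedOrder (FD Y) := ⟨fun V W =>
  haveI := V.2
  haveI := W.2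
  ⟨⟨V.1 ⊔ W.1, inferInstance⟩, le_sup_left (a := V.1) (b := W.1),
    le_sup_right (a := V.1) (b := W.1)⟩⟩

instance : Nonempty (FD Y) := ⟨⟨⊥, inferInstance⟩⟩

/-- an ultrafilter on the finite-dimensional subspaces -/
noncomputable def uf (Y : Type*) [NormedAddCommGroup Y] [NormedSpace ℝ Y] : Ultrafilter (FD Y) :=
  Ultrafilter.of atTop

lemma uf_ev {p : FD Y → Prop} (V0 : FD Y) (h : ∀ V, V0 ≤ V → p V) : ∀ᶠ V in (uf Y : Filter (FD Y)), p V :=
  Ultrafilter.of_le atTop (eventually_atTop.2 ⟨V0, h⟩)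

lemma ev_mem (y : Y) : ∀ᶠ V in (uf Y : Filter (FD Y)), y ∈ V.1 :=
  uf_ev ⟨Submodule.span ℝ {y}, inferInstance⟩ (fun _ hV => hV (Submodule.mem_span_singleton_self y))

lemma uf_lim {f : FD Y → ℝ} {C : ℝ} (h : ∀ᶠ V in (uf Y : Filter (FD Y)), |f V| ≤ C) :
    ∃ L : ℝ, Tendsto f (uf Y : Filter (FD Y)) (𝓝 L) := by
  have hc : IsCompact (Set.Icc (-C) C) := isCompact_Icc
  have h1 : (((uf Y).map f : Ultrafilter ℝ) : Filter ℝ) ≤ 𝓟 (Set.Icc (-C) C) := by
    rw [le_principal_iff]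
    show ∀ᶠ V in (uf Y : Filter (FD Y)), f V ∈ Set.Icc (-C) C
    filter_upwards [h] with V hV
    exact abs_le.1 hV
  obtain ⟨L, _, hL⟩ := isCompact_iff_ultrafilter_le_nhds.1 hc _ h1
  exact ⟨L, hL⟩

/-- the invariant form -/
lemma lim_form (hE : ¬ FiniteDimensional ℝ Y)
    (htr : ∀ x y : Y, ‖x‖ = 1 → ‖y‖ = 1 → ∃ T : Y ≃ₗᵢ[ℝ] Y, T x = y)
    (T1 : Y ≃ₗᵢ[ℝ] Y) (hT1 : T1 ≠ 1) (hfr : Fr T1) {x0 : Y} (hx0 : x0 ≠ 0) :
    ∃ B : Y →ₗ[ℝ] Y →ₗ[ℝ] ℝ, B x0 x0 = 1 ∧ (∀ x y, B x y = B y x) ∧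
      ∀ g, Fr g → ∀ x y, B (g x) (g y) = B x y := by
  have hpos : ∀ᶠ V in (uf Y : Filter (FD Y)), 0 < be V x0 x0 := by
    filter_upwards [ev_mem x0] with V hV
    exact (be_spec V).2.2.1 x0 hV hx0
  have hbd : ∀ y : Y, ∃ K : ℝ, ∀ᶠ V in (uf Y : Filter (FD Y)),
      be V y y ≤ K * be V x0 x0 := by
    intro y
    obtain ⟨e, he, hey⟩ := irr hE htr T1 hT1 hfr hx0 y
    obtain ⟨_, _, V0, K, _, h⟩ := adj he
    refine ⟨K, ?_⟩
    filter_upwards [uf_ev (p := fun V => V0 ≤ V) V0 (fun V hV => hV), ev_mem x0] with V h1 h2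
    have := (h V h1 x0 h2).2.2.1
    rwa [hey] at this
  have hlim : ∀ y z : Y, ∃ L : ℝ, Tendsto (fun V : FD Y => be V y z / be V x0 x0)
      (uf Y : Filter (FD Y)) (𝓝 L) := by
    intro y z
    obtain ⟨K1, h1⟩ := hbd y
    obtain ⟨K2, h2⟩ := hbd z
    apply uf_lim (C := K1 + K2)
    filter_upwards [h1, h2, hpos] with V a1 a2 a3
    rw [abs_div, abs_of_pos a3, div_le_iff₀ a3]
    have b1 := (be_spec V).2.1 (y - z)
    have b2 := (be_spec V).2.1 (y + z)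
    have b3 := (be_spec V).1 y z
    have b4 := (be_spec V).2.1 y
    have b5 := (be_spec V).2.1 z
    simp only [LinearMap.add_apply, map_add, map_sub, LinearMap.sub_apply] at b1 b2
    rw [← b3] at b1 b2
    rw [abs_le]
    constructor <;> nlinarith
  choose B hB using hlim
  have huq : ∀ {f : FD Y → ℝ} {a b : ℝ}, Tendsto f (uf Y : Filter (FD Y)) (𝓝 a) →
      Tendsto f (uf Y : Filter (FD Y)) (𝓝 b) → a = b := fun h1 h2 => tendsto_nhds_unique h1 h2
  refine ⟨LinearMap.mk₂ ℝ B ?_ ?_ ?_ ?_, ?_, ?_, ?_⟩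
  · intro a b c
    refine huq (hB (a + b) c) (((hB a c).add (hB b c)).congr (fun V => ?_))
    rw [map_add, LinearMap.add_apply, add_div]
  · intro r a c
    refine huq (hB (r • a) c) (((hB a c).const_mul r).congr (fun V => ?_))
    rw [map_smul, LinearMap.smul_apply, smul_eq_mul, mul_div_assoc]
  · intro a b c
    refine huq (hB a (b + c)) (((hB a b).add (hB a c)).congr (fun V => ?_))
    rw [map_add, add_div]
  · intro r a c
    refine huq (hB a (r • c)) (((hB a c).const_mul r).congr (fun V => ?_))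
    rw [map_smul, smul_eq_mul, mul_div_assoc]
  · show B x0 x0 = 1
    refine huq (hB x0 x0) (tendsto_const_nhds.congr' ?_)
    filter_upwards [hpos] with V hV
    rw [div_self hV.ne']
  · intro x y
    show B x y = B y x
    refine huq (hB x y) ((hB y x).congr (fun V => ?_))
    rw [(be_spec V).1]
  · rintro g ⟨V0, hV0, hg⟩ x y
    show B (g x) (g y) = B x y
    refine huq (hB (g x) (g y)) ((hB x y).congr' ?_)
    filter_upwards [uf_ev (p := fun V => V0 ≤ V.1) ⟨V0, hV0⟩ (fun V hV => hV), ev_mem x, ev_mem y]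
      with V h1 h2 h3
    rw [(be_spec V).2.2.2 g (hg.mono h1) x h2 y h3]

/-- the invariant form is bounded -/
lemma lim_form_bd [CompleteSpace Y] (hE : ¬ FiniteDimensional ℝ Y)
    (htr : ∀ x y : Y, ‖x‖ = 1 → ‖y‖ = 1 → ∃ T : Y ≃ₗᵢ[ℝ] Y, T x = y)
    (T1 : Y ≃ₗᵢ[ℝ] Y) (hT1 : T1 ≠ 1) (hfr : Fr T1) {x0 : Y} (hx0 : x0 ≠ 0) :
    ∃ B : Y →L[ℝ] Y →L[ℝ] ℝ, B x0 x0 = 1 ∧ ∀ g, Fr g → ∀ x y, B (g x) (g y) = B x y := by
  obtain ⟨B, hB1, hB2, hB3⟩ := lim_form hE htr T1 hT1 hfr hx0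
  obtain ⟨w0, hw0⟩ : ∃ w, T1 w - w ≠ 0 := by
    by_contra hcon
    push Not at hcon
    exact hT1 (by ext x; exact sub_eq_zero.1 (hcon x))
  -- partial continuity
  have hcont : ∀ z : Y, Continuous (fun y => B y z) := by
    intro z
    by_cases hz : z = 0
    · subst hz
      simp only [map_zero]
      exact continuous_const
    obtain ⟨S, r, _, hS⟩ := tr_scale htr hw0 hz
    set g := S * T1 * S⁻¹ with hg
    have hgf : Fr g := hfr.conj S
    set w := S (r • w0) with hw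
    have hz' : z = g w - w := by
      rw [← hS, hg]
      show S (r • (T1 w0 - w0)) = S (T1 (S⁻¹ (S (r • w0)))) - S (r • w0)
      have : S⁻¹ (S (r • w0)) = r • w0 := S.symm_apply_apply _
      rw [this, ← map_sub S, map_smul T1, ← smul_sub]
    have hi : ∀ y, B y z = B (g⁻¹ y - y) w := by
      intro y
      have h1 := hB3 g hgf (g⁻¹ y) w
      have h2 : g (g⁻¹ y) = y := g.apply_symm_apply y
      rw [h2] at h1
      rw [hz', map_sub, h1, map_sub, LinearMap.sub_apply]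
    obtain ⟨V, hV, hgV⟩ := hgf.inv
    let φ : V →ₗ[ℝ] ℝ := (B.flip w).comp V.subtype
    have hφ : Continuous φ := φ.continuous_of_finiteDimensional
    have h3 : Continuous (fun y : Y => (⟨g⁻¹ y - y, hgV y⟩ : V)) :=
      Continuous.subtype_mk (by
        have : Continuous (fun y : Y => g⁻¹ y) := (g⁻¹).continuous
        exact this.sub continuous_id) _
    have h4 : (fun y => B y z) = fun y => φ ⟨g⁻¹ y - y, hgV y⟩ := by
      funext y
      exact hi y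
    rw [h4]
    exact hφ.comp h3
  -- the functionals
  let F : Y → (Y →L[ℝ] ℝ) := fun z => ⟨B.flip z, hcont z⟩
  have hF : ∀ z y, F z y = B y z := fun z y => rfl
  obtain ⟨C, hC⟩ := banach_steinhaus (ι := {y : Y // ‖y‖ ≤ 1}) (g := fun y => F y) (by
    intro z
    refine ⟨‖F z‖, fun y => ?_⟩
    rw [hF, hB2, ← hF]
    calc ‖F z y‖ ≤ ‖F z‖ * ‖(y : Y)‖ := (F z).le_opNorm _
      _ ≤ ‖F z‖ * 1 := mul_le_mul_of_nonneg_left y.2 (norm_nonneg _)
      _ = _ := mul_one _)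
  have hbound : ∀ y z, ‖B y z‖ ≤ C * ‖y‖ * ‖z‖ := by
    intro y z
    by_cases hz : z = 0
    · subst hz
      rw [map_zero, norm_zero, norm_zero, mul_zero]
    have hz' : 0 < ‖z‖ := norm_pos_iff.2 hz
    have h1 : ‖‖z‖⁻¹ • z‖ ≤ 1 := by
      rw [norm_smul, norm_inv, norm_norm, inv_mul_cancel₀ hz'.ne']
    have h2 := hC ⟨‖z‖⁻¹ • z, h1⟩
    have h3 : ‖F (‖z‖⁻¹ • z) y‖ ≤ C * ‖y‖ :=
      ((F _).le_opNorm y).trans (mul_le_mul_of_nonneg_right h2 (norm_nonneg _))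
    rw [hF, map_smul, smul_eq_mul, norm_mul, norm_inv, norm_norm] at h3
    rw [inv_mul_le_iff₀ hz'] at h3
    linarith
  refine ⟨B.mkContinuous₂ C hbound, ?_, ?_⟩
  · rw [LinearMap.mkContinuous₂_apply, hB1]
  · intro g hg x y
    rw [LinearMap.mkContinuous₂_apply, LinearMap.mkContinuous₂_apply, hB3 g hg]

/-- a transitive space with an isometry which is a finite-rank perturbation of the identity -/
theorem paral_fr [CompleteSpace Y] (hE : ¬ FiniteDimensional ℝ Y)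
    (htr : ∀ x y : Y, ‖x‖ = 1 → ‖y‖ = 1 → ∃ T : Y ≃ₗᵢ[ℝ] Y, T x = y)
    (T1 : Y ≃ₗᵢ[ℝ] Y) (hT1 : T1 ≠ 1) (hfr : Fr T1) (x y : Y) :
    ‖x + y‖ ^ 2 + ‖x - y‖ ^ 2 = 2 * ‖x‖ ^ 2 + 2 * ‖y‖ ^ 2 := by
  obtain ⟨w0, hw0⟩ : ∃ w, T1 w - w ≠ 0 := by
    by_contra hcon
    push Not at hcon
    exact hT1 (by ext x; exact sub_eq_zero.1 (hcon x))
  obtain ⟨B, hB1, hB2⟩ := lim_form_bd hE htr T1 hT1 hfr hw0
  let M : Submodule ℝ (Y →L[ℝ] Y →L[ℝ] ℝ) :=
    { carrier := {b | ∀ g, Fr g → ∀ x y, b (g x) (g y) = b x y}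
      add_mem' := by
        intro a b ha hb g hg x y
        rw [add_apply, add_apply, add_apply, add_apply, ha g hg, hb g hg]
      zero_mem' := by
        intro g hg x y
        rfl
      smul_mem' := by
        intro r a ha g hg x y
        rw [smul_apply, smul_apply, smul_apply, smul_apply, ha g hg] }
  have hmM : ∀ b, b ∈ M ↔ ∀ g, Fr g → ∀ x y, b (g x) (g y) = b x y := fun b => Iff.rfl
  obtain ⟨V, hV, hVi⟩ := hfr.inv
  let D : Y →L[ℝ] V := ⟨LinearMap.codRestrict V (Lg T1⁻¹ - 1) (fun x => hVi x), by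
    refine Continuous.subtype_mk ?_ _
    have : Continuous (fun y : Y => T1⁻¹ y) := (T1⁻¹).continuous
    exact this.sub continuous_id⟩
  have hD : ∀ y, (D y : Y) = T1⁻¹ y - y := fun y => rfl
  let Ψ : (V →L[ℝ] ℝ) →ₗ[ℝ] (Y →L[ℝ] ℝ) :=
    { toFun := fun φ => φ.comp D
      map_add' := fun φ ψ => rfl
      map_smul' := fun r φ => rfl }
  have hat : Pool.Agent.TH596.RO.AT (⊤ : Subgroup (Y ≃ₗᵢ[ℝ] Y)) := by
    intro x y hx hy ε hε
    obtain ⟨T, hT⟩ := htr x y hx hy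
    exact ⟨T, trivial, by rw [hT, sub_self, norm_zero]; exact hε⟩
  refine Pool.Agent.TH596.RO.forms_par_pt hE (H := ⊤) hat (N := M) ?_ (x1 := T1 w0 - w0) hw0
    (W := LinearMap.range Ψ) inferInstance ?_ (b0 := B) ((hmM B).2 hB2) (x0 := T1 w0 - w0) ?_ x y
  · intro T _ b hb
    rw [hmM] at hb ⊢
    intro g hg x y
    rw [Pool.Agent.TH596.RO.bl_apply, Pool.Agent.TH596.RO.bl_apply]
    have h1 := hb (T⁻¹ * g * T⁻¹⁻¹) (hg.conj T⁻¹) (T.symm x) (T.symm y)
    have h2 : ∀ z, (T⁻¹ * g * T⁻¹⁻¹) (T.symm z) = T.symm (g z) := by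
      intro z
      show T.symm (g (T (T.symm z))) = T.symm (g z)
      rw [T.apply_symm_apply]
    rw [h2, h2] at h1
    exact h1
  · intro b hb
    refine ⟨(b w0).comp (V.subtypeL), ?_⟩
    ext y
    show b w0 (D y : Y) = b (T1 w0 - w0) y
    have h1 := (hmM b).1 hb T1 hfr w0 (T1⁻¹ y)
    have h2 : T1 (T1⁻¹ y) = y := T1.apply_symm_apply y
    rw [h2] at h1
    rw [hD, map_sub, map_sub, sub_apply, h1]
  · rw [hB1]
    exact one_ne_zero

end Pool.Agent.U559.CP
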