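import Pool.Agent.U559.CP.Exp
import Pool.Agent.U559.CP.Form
import Pool.Agent.TH596.RO.Main

/-!
# A compact perturbation of the identity and a skew operator
-/

set_option autoImplicit false
set_option linter.unusedSectionVars false
set_option linter.style.haveILetI false

namespace Pool.Agent.U559.CP

open Pool.H590R3.Ab Pool.Agent.W687.Rot Pool.Agent.TH596.RO

variable {Y : Type*} [NormedAddCommGroup Y] [NormedSpace ℝ Y] [CompleteSpace Y]

lemma comm_zpow {T : Y ≃ₗᵢ[ℝ] Y} {a : Y →L[ℝ] Y} (h : a * op T = op T * a) (k : ℤ) :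
    a * op (T ^ k) = op (T ^ k) * a := by
  have h' : a * op T⁻¹ = op T⁻¹ * a := by
    calc a * op T⁻¹ = (op T⁻¹ * op T) * a * op T⁻¹ := by rw [← op_mul, inv_mul_cancel, op_one, one_mul]
      _ = op T⁻¹ * (op T * a) * op T⁻¹ := by simp only [mul_assoc]
      _ = op T⁻¹ * a * (op T * op T⁻¹) := by rw [← h]; simp only [mul_assoc]
      _ = _ := by rw [← op_mul, mul_inv_cancel, op_one, mul_one]
  induction k using Int.induction_on with
  | zero => rw [zpow_zero, op_one, mul_one, one_mul]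
  | succ k ih => rw [zpow_add_one, op_mul, ← mul_assoc, ih, mul_assoc, h, mul_assoc]
  | pred k ih => rw [zpow_sub_one, op_mul, ← mul_assoc, ih, mul_assoc, h', mul_assoc]

theorem paral_skew (hE : ¬ FiniteDimensional ℝ Y)
    (htr : ∀ x y : Y, ‖x‖ = 1 → ‖y‖ = 1 → ∃ T : Y ≃ₗᵢ[ℝ] Y, T x = y)
    {T : Y ≃ₗᵢ[ℝ] Y} (hT1 : T ≠ 1) (hT : IsCompactOperator (op T - 1 : Y →L[ℝ] Y))
    {B : Y →L[ℝ] Y} (hB : Sk B) (hB0 : B ≠ 0) {z : Y} (hz : z ≠ 0) (hBz : B z = 0) (x y : Y) :
    ‖x + y‖ ^ 2 + ‖x - y‖ ^ 2 = 2 * ‖x‖ ^ 2 + 2 * ‖y‖ ^ 2 := by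
  have hat : AT (⊤ : Subgroup (Y ≃ₗᵢ[ℝ] Y)) := by
    intro x y hx hy ε hε
    obtain ⟨T, hT⟩ := htr x y hx hy
    exact ⟨T, trivial, by rw [hT, sub_self, norm_zero]; exact hε⟩
  -- some conjugate does not commute
  obtain ⟨g, hg⟩ : ∃ g : Y ≃ₗᵢ[ℝ] Y, Ad T (Ad g B) ≠ Ad g B := by
    by_contra hcon
    push Not at hcon
    obtain ⟨w, hw⟩ : ∃ w, T w ≠ w := by
      by_contra h
      push Not at h
      exact hT1 (by ext w; exact h w)
    obtain ⟨e, he, hew⟩ : ∃ e : ℝ, 0 < e ∧ Ps T (bd e) w ≠ w := by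
      by_contra h
      push Not at h
      exact hw (fix_of_bd T w h)
    haveI hfd := fd_q hT he
    set q : Y →L[ℝ] Y := 1 - Ps T (bd e) with hq
    have hqw : q w ≠ 0 := by
      intro h
      apply hew
      have : w - Ps T (bd e) w = 0 := h
      exact (sub_eq_zero.1 this).symm
    let M : Submodule ℝ (Y →L[ℝ] Y) := Submodule.span ℝ {a | ∃ g : Y ≃ₗᵢ[ℝ] Y, a = Ad g B}
    have hM1 : ∀ S ∈ (⊤ : Subgroup (Y ≃ₗᵢ[ℝ] Y)), ∀ a ∈ M, cj S a ∈ M := by
      intro S _ a ha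
      have hle : M ≤ M.comap ((Ad S).toLinearEquiv : (Y →L[ℝ] Y) →ₗ[ℝ] (Y →L[ℝ] Y)) := by
        rw [Submodule.span_le]
        rintro _ ⟨g, rfl⟩
        refine Submodule.subset_span ⟨S * g, ?_⟩
        show op S * (op g * (B * op g⁻¹) * op S⁻¹) = op (S * g) * (B * op (S * g)⁻¹)
        rw [mul_inv_rev, op_mul, op_mul]
        simp only [mul_assoc]
      have h1 := hle ha
      have h2 : cj S a = Ad S a := by
        ext v
        rfl
      rw [h2]
      exact h1
    have hM2 : ∀ a ∈ M, a * op T = op T * a := by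
      intro a ha
      induction ha using Submodule.span_induction with
      | mem a ha =>
        obtain ⟨g, rfl⟩ := ha
        have h1 := hcon g
        rw [Ad_apply T] at h1
        calc Ad g B * op T = op T * (Ad g B * op T⁻¹) * op T := by rw [h1]
          _ = op T * Ad g B * (op T⁻¹ * op T) := by simp only [mul_assoc]
          _ = _ := by rw [← op_mul, inv_mul_cancel, op_one, mul_one]
      | zero => rw [zero_mul, mul_zero]
      | add a b _ _ ha hb => rw [add_mul, mul_add, ha, hb]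
      | smul r a _ ha => rw [smul_mul_assoc, mul_smul_comm, ha]
    have hM3 : ∀ a ∈ M, a (q w) ∈ LinearMap.range (q : Y →ₗ[ℝ] Y) := by
      intro a ha
      have h1 : a * Ps T (bd e) = Ps T (bd e) * a :=
        Fop_comm_of T (sm (bd_contDiff e)) a (comm_zpow (hM2 a ha))
      have h2 : a * q = q * a := by
        rw [hq, mul_sub, sub_mul, mul_one, one_mul, h1]
      exact ⟨a w, (DFunLike.congr_fun h2 w).symm⟩
    have hBM : B ∈ M := by
      refine Submodule.subset_span ⟨1, ?_⟩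
      ext v
      rfl
    have h1 := pt_op hE hat hM1 hqw hfd hM3 hBM
    have h2 := (core_DD hE hat).2 B h1 z
    rw [hBz, norm_zero] at h2
    have h3 : 0 < ‖B‖ * ‖z‖ := mul_pos (norm_pos_iff.2 hB0) (norm_pos_iff.2 hz)
    linarith
  obtain ⟨e, he, hne⟩ : ∃ e : ℝ, 0 < e ∧ Ps (Ad T) (bd e) (Ad g B) ≠ Ad g B := by
    by_contra h
    push Not at h
    exact hg (fix_of_bd (Ad T) (Ad g B) h)
  have hD0 : Dd T e (Ad g B) ≠ 0 := by
    intro h
    exact hne (sub_eq_zero.1 h).symm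
  obtain ⟨U, hU1, hU2⟩ := exists_fr ((hB.ad g).dd T he) hD0 (Dd_fr hT he _)
  exact paral_fr hE htr U hU1 hU2 x y

end Pool.Agent.U559.CP
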