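import Pool.Agent.U559.CP.Ult
import Pool.Agent.TH596.RO.LaC

/-!
# Small compact perturbations of the identity exist
-/

set_option autoImplicit false
set_option linter.unusedSectionVars false
set_option linter.style.haveILetI false

namespace Pool.Agent.U559.CP

open Filter Topology Pool.H590R3.Ab Pool.Agent.TH596.RO

variable {E : Type*} [NormedAddCommGroup E] [NormedSpace ℝ E]

/-- compact perturbations of the identity -/
def Cpt (g : E ≃ₗᵢ[ℝ] E) : Prop := IsCompactOperator (op g - 1 : E →L[ℝ] E)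

lemma Cpt.mul {g h : E ≃ₗᵢ[ℝ] E} (hg : Cpt g) (hh : Cpt h) : Cpt (g * h) := by
  have h1 : op (g * h) - 1 = op g * (op h - 1) + (op g - 1) := by
    rw [op_mul, mul_sub, mul_one]
    abel
  have h2 : IsCompactOperator (op g * (op h - 1) : E →L[ℝ] E) := hh.clm_comp (op g)
  show IsCompactOperator (op (g * h) - 1 : E →L[ℝ] E)
  rw [h1]
  exact h2.add hg

lemma Cpt.inv {g : E ≃ₗᵢ[ℝ] E} (hg : Cpt g) : Cpt g⁻¹ := by
  have h2 : IsCompactOperator (op g⁻¹ * (op g - 1) : E →L[ℝ] E) := hg.clm_comp (op g⁻¹)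
  show IsCompactOperator (op g⁻¹ - 1 : E →L[ℝ] E)
  rw [inv_eq]
  exact h2.neg

lemma Cpt.conj {T : E ≃ₗᵢ[ℝ] E} (hT : Cpt T) (g : E ≃ₗᵢ[ℝ] E) : Cpt (g * T * g⁻¹) := by
  have h1 : op (g * T * g⁻¹) - 1 = op g * (op T - 1) * op g⁻¹ := by
    rw [op_mul, op_mul, mul_sub, sub_mul, mul_one, ← op_mul g g⁻¹, mul_inv_cancel, op_one]
  have h2 : IsCompactOperator (op g * (op T - 1) : E →L[ℝ] E) := hT.clm_comp (op g)
  have h3 : IsCompactOperator (op g * (op T - 1) * op g⁻¹ : E →L[ℝ] E) := h2.comp_clm (op g⁻¹)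
  show IsCompactOperator (op (g * T * g⁻¹) - 1 : E →L[ℝ] E)
  rw [h1]
  exact h3

/-- small on the image of the ball -/
def Nr (K : E →L[ℝ] E) (η : ℝ) (g : E ≃ₗᵢ[ℝ] E) : Prop := ∀ x, ‖x‖ ≤ 1 → ‖g (K x) - K x‖ ≤ η

lemma Nr.mono {K : E →L[ℝ] E} {a b : ℝ} (hab : a ≤ b) {g : E ≃ₗᵢ[ℝ] E} (h : Nr K a g) : Nr K b g :=
  fun x hx => (h x hx).trans hab

lemma Nr.mul {K : E →L[ℝ] E} {a b : ℝ} {g h : E ≃ₗᵢ[ℝ] E} (hg : Nr K a g) (hh : Nr K b h) :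
    Nr K (a + b) (g * h) := by
  intro x hx
  have h1 : (g * h) (K x) - K x = g (h (K x) - K x) + (g (K x) - K x) := by
    show g (h (K x)) - K x = _
    rw [map_sub]
    abel
  rw [h1]
  refine (norm_add_le _ _).trans ?_
  rw [g.norm_map]
  linarith [hg x hx, hh x hx]

lemma Nr.bound {K : E →L[ℝ] E} {η : ℝ} (hη : 0 ≤ η) {g : E ≃ₗᵢ[ℝ] E} (h : Nr K η g) :
    ‖(op g - 1) * K‖ ≤ η :=
  ContinuousLinearMap.opNorm_le_of_unit_norm hη (fun x hx => h x hx.le)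

lemma Nr.bound' {K : E →L[ℝ] E} {η : ℝ} (hη : 0 ≤ η) {g : E ≃ₗᵢ[ℝ] E} (h : Nr K η g) :
    ‖(op g⁻¹ - 1) * K‖ ≤ η := by
  have h1 : (op g⁻¹ - 1) * K = -(op g⁻¹ * ((op g - 1) * K)) := by
    rw [inv_eq, neg_mul, mul_assoc]
  rw [h1, norm_neg, norm_op_mul]
  exact h.bound hη

lemma exists_net {K : E →L[ℝ] E} (hK : IsCompactOperator K) {η : ℝ} (hη : 0 < η) :
    ∃ (m : ℕ) (f : Fin m → E) (r : ℝ), 0 < r ∧
      ∀ g : E ≃ₗᵢ[ℝ] E, (∀ i, ‖g (f i) - f i‖ ≤ r) → Nr K η g := by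
  have h1 := hK.isCompact_closure_image_closedBall (𝕜₁ := ℝ) (σ₁₂ := RingHom.id ℝ)
    (f := (K : E →ₗ[ℝ] E)) 1
  obtain ⟨t, ht, hcov⟩ := Metric.totallyBounded_iff.1 h1.totallyBounded (η / 3) (by positivity)
  obtain ⟨m, f, _, hf⟩ := ht.fin_param
  refine ⟨m, f, η / 3, by positivity, fun g hg x hx => ?_⟩
  have h2 : K x ∈ closure ((K : E →ₗ[ℝ] E) '' Metric.closedBall 0 1) :=
    subset_closure ⟨x, by rw [mem_closedBall_zero_iff]; exact hx, rfl⟩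
  obtain ⟨y, hy, hxy⟩ := Set.mem_iUnion₂.1 (hcov h2)
  rw [← hf] at hy
  obtain ⟨i, rfl⟩ := hy
  rw [Metric.mem_ball, dist_eq_norm] at hxy
  have h3 : g (K x) - K x = g (K x - f i) + (g (f i) - f i) - (K x - f i) := by
    rw [map_sub]
    abel
  rw [h3]
  have h4 := norm_sub_le (g (K x - f i) + (g (f i) - f i)) (K x - f i)
  have h5 := norm_add_le (g (K x - f i)) (g (f i) - f i)
  rw [g.norm_map] at h5
  have h6 := hg i
  linarith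

/-- the commutator -/
def cm (T g : E ≃ₗᵢ[ℝ] E) : E ≃ₗᵢ[ℝ] E := g * T * g⁻¹ * T⁻¹

lemma Cpt.cm {T : E ≃ₗᵢ[ℝ] E} (hT : Cpt T) (g : E ≃ₗᵢ[ℝ] E) : Cpt (cm T g) :=
  (hT.conj g).mul hT.inv

lemma norm_sub_one_le (g : E ≃ₗᵢ[ℝ] E) : ‖op g - 1‖ ≤ 2 := by
  refine (norm_sub_le _ _).trans ?_
  have h1 := op_norm_le g
  have h2 : ‖(1 : E →L[ℝ] E)‖ ≤ 1 := ContinuousLinearMap.norm_id_le
  linarith

lemma cm_eq (T g : E ≃ₗᵢ[ℝ] E) : op (cm T g) - 1 =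
    (op g - 1) * (op T - 1) * (op g⁻¹ * op T⁻¹) + (op T - 1) * (op g⁻¹ - 1) * op T⁻¹ := by
  have h1 : op g * op g⁻¹ = 1 := by rw [← op_mul, mul_inv_cancel, op_one]
  have h2 : op T * op T⁻¹ = 1 := by rw [← op_mul, mul_inv_cancel, op_one]
  have h3 : op (cm T g) = op g * op T * op g⁻¹ * op T⁻¹ := by
    unfold cm
    rw [op_mul, op_mul, op_mul]
  rw [h3]
  calc op g * op T * op g⁻¹ * op T⁻¹ - 1
      = op g * op T * op g⁻¹ * op T⁻¹ - op T * op T⁻¹ := by rw [h2]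
    _ = op g * op T * op g⁻¹ * op T⁻¹ - op T * op T⁻¹ -
        (op g * op g⁻¹ * op T⁻¹ - 1 * op T⁻¹) := by rw [h1, sub_self, sub_zero]
    _ = _ := by noncomm_ring

lemma mul_cm {T g h : E ≃ₗᵢ[ℝ] E} {η : ℝ} (hη : 0 ≤ η) (hη1 : η ≤ 1)
    (hg : Nr (op T - 1 : E →L[ℝ] E) η g) (hh : Nr (op T - 1 : E →L[ℝ] E) η h) :
    ‖(op (cm T g) - 1) * (op (cm T h) - 1)‖ ≤ 13 * η := by
  have hK : op T⁻¹ * (op T - 1) = (op T - 1) * op T⁻¹ := by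
    rw [mul_sub, sub_mul, ← op_mul, ← op_mul, inv_mul_cancel, mul_inv_cancel, mul_one, one_mul]
  set K : E →L[ℝ] E := op T - 1 with hKd
  have hKn : ‖K‖ ≤ 2 := norm_sub_one_le T
  have hP : ∀ u : E ≃ₗᵢ[ℝ] E, Nr K η u → ‖(op u - 1) * K * (op u⁻¹ * op T⁻¹)‖ ≤ η := by
    intro u hu
    rw [← op_mul, norm_mul_op]
    exact hu.bound hη
  have hR : ∀ u : E ≃ₗᵢ[ℝ] E, ‖K * (op u⁻¹ - 1) * op T⁻¹‖ ≤ 4 := by
    intro u
    rw [norm_mul_op]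
    refine (norm_mul_le _ _).trans ?_
    have := norm_sub_one_le u⁻¹
    nlinarith [norm_nonneg K, norm_nonneg (op u⁻¹ - 1 : E →L[ℝ] E)]
  have hRR : ‖(K * (op g⁻¹ - 1) * op T⁻¹) * (K * (op h⁻¹ - 1) * op T⁻¹)‖ ≤ 4 * η := by
    have e1 : (K * (op g⁻¹ - 1) * op T⁻¹) * (K * (op h⁻¹ - 1) * op T⁻¹) =
        K * ((op g⁻¹ - 1) * K) * op T⁻¹ * (op h⁻¹ - 1) * op T⁻¹ := by
      calc (K * (op g⁻¹ - 1) * op T⁻¹) * (K * (op h⁻¹ - 1) * op T⁻¹)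
          = K * (op g⁻¹ - 1) * (op T⁻¹ * K) * (op h⁻¹ - 1) * op T⁻¹ := by
            simp only [mul_assoc]
        _ = _ := by
            rw [hK]
            simp only [mul_assoc]
    rw [e1, norm_mul_op]
    refine (norm_mul_le _ _).trans ?_
    rw [norm_mul_op]
    have h1 : ‖K * ((op g⁻¹ - 1) * K)‖ ≤ 2 * η := by
      refine (norm_mul_le _ _).trans ?_
      exact mul_le_mul hKn (hg.bound' hη) (norm_nonneg _) (by norm_num)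
    have h2 := norm_sub_one_le h⁻¹
    calc ‖K * ((op g⁻¹ - 1) * K)‖ * ‖op h⁻¹ - 1‖ ≤ (2 * η) * 2 :=
          mul_le_mul h1 h2 (norm_nonneg _) (by positivity)
      _ = 4 * η := by ring
  rw [cm_eq, cm_eq, add_mul, mul_add, mul_add]
  have a1 := (norm_mul_le ((op g - 1) * K * (op g⁻¹ * op T⁻¹)) ((op h - 1) * K * (op h⁻¹ * op T⁻¹)))
  have a2 := (norm_mul_le ((op g - 1) * K * (op g⁻¹ * op T⁻¹)) (K * (op h⁻¹ - 1) * op T⁻¹))
  have a3 := (norm_mul_le (K * (op g⁻¹ - 1) * op T⁻¹) ((op h - 1) * K * (op h⁻¹ * op T⁻¹)))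
  have b1 := hP g hg
  have b2 := hP h hh
  have b3 := hR g
  have b4 := hR h
  have c1 : ‖(op g - 1) * K * (op g⁻¹ * op T⁻¹) * ((op h - 1) * K * (op h⁻¹ * op T⁻¹))‖ ≤ η := by
    refine a1.trans ((mul_le_mul b1 b2 (norm_nonneg _) hη).trans ?_)
    nlinarith
  have c2 : ‖(op g - 1) * K * (op g⁻¹ * op T⁻¹) * (K * (op h⁻¹ - 1) * op T⁻¹)‖ ≤ 4 * η := by
    refine a2.trans ((mul_le_mul b1 b4 (norm_nonneg _) hη).trans ?_)
    linarith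
  have c3 : ‖K * (op g⁻¹ - 1) * op T⁻¹ * ((op h - 1) * K * (op h⁻¹ * op T⁻¹))‖ ≤ 4 * η := by
    refine a3.trans ((mul_le_mul b3 b2 (norm_nonneg _) (by norm_num)).trans ?_)
    linarith
  refine (norm_add_le _ _).trans ?_
  have d1 := norm_add_le ((op g - 1) * K * (op g⁻¹ * op T⁻¹) * ((op h - 1) * K * (op h⁻¹ * op T⁻¹)))
    ((op g - 1) * K * (op g⁻¹ * op T⁻¹) * (K * (op h⁻¹ - 1) * op T⁻¹))
  have d2 := norm_add_le (K * (op g⁻¹ - 1) * op T⁻¹ * ((op h - 1) * K * (op h⁻¹ * op T⁻¹)))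
    (K * (op g⁻¹ - 1) * op T⁻¹ * (K * (op h⁻¹ - 1) * op T⁻¹))
  linarith

lemma eq_one_of_norm {g : E ≃ₗᵢ[ℝ] E} (h : (op g - 1 : E →L[ℝ] E) = 0) : g = 1 := by
  ext z
  exact sub_eq_zero.1 (DFunLike.congr_fun h z)

/-- commutators of commutators -/
lemma cm_comm {T : E ≃ₗᵢ[ℝ] E} (hT : Cpt T) {δ : ℝ}
    (hdisc : ∀ g : E ≃ₗᵢ[ℝ] E, Cpt g → ‖op g - 1‖ < δ → g = 1) {η : ℝ} (hη : 0 ≤ η) (hη1 : η ≤ 1)
    (hηδ : 26 * η < δ) {g h : E ≃ₗᵢ[ℝ] E}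
    (hg : Nr (op T - 1 : E →L[ℝ] E) η g) (hh : Nr (op T - 1 : E →L[ℝ] E) η h) :
    Commute (cm T g) (cm T h) := by
  set a := cm T g with ha
  set b := cm T h with hb
  have h1 : Cpt (a * b * (b * a)⁻¹) :=
    ((hT.cm g).mul (hT.cm h)).mul ((hT.cm h).mul (hT.cm g)).inv
  have h2 : op (a * b * (b * a)⁻¹) - 1 =
      ((op a - 1) * (op b - 1) - (op b - 1) * (op a - 1)) * op (b * a)⁻¹ := by
    have e1 : (1 : E →L[ℝ] E) = op (b * a) * op (b * a)⁻¹ := by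
      rw [← op_mul, mul_inv_cancel, op_one]
    rw [op_mul]
    calc op (a * b) * op (b * a)⁻¹ - 1 = op (a * b) * op (b * a)⁻¹ - op (b * a) * op (b * a)⁻¹ := by
          rw [← e1]
      _ = _ := by
          rw [← sub_mul, op_mul, op_mul]
          congr 1
          noncomm_ring
  have h3 : ‖op (a * b * (b * a)⁻¹) - 1‖ < δ := by
    rw [h2, norm_mul_op]
    refine (norm_sub_le _ _).trans_lt ?_
    have m1 := mul_cm hη hη1 hg hh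
    have m2 := mul_cm hη hη1 hh hg
    linarith
  have h4 := hdisc _ h1 h3
  show a * b = b * a
  exact mul_inv_eq_one.1 h4

lemma eq_one_of_DD [CompleteSpace E] (hE : ¬ FiniteDimensional ℝ E)
    (hat : AT (⊤ : Subgroup (E ≃ₗᵢ[ℝ] E))) {h : E ≃ₗᵢ[ℝ] E} (hc : Cpt h)
    (hD : op h ∈ DD (⊤ : Subgroup (E ≃ₗᵢ[ℝ] E))) : h = 1 := by
  have h1 : op h - 1 ∈ DD (⊤ : Subgroup (E ≃ₗᵢ[ℝ] E)) :=
    Subalgebra.sub_mem _ hD (Subalgebra.one_mem _)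
  have h2 := (core_DD hE hat).2 _ h1
  apply eq_one_of_norm
  by_contra hne
  have hpos : 0 < ‖op h - 1‖ := norm_pos_iff.2 hne
  obtain ⟨x, hx1, hx2⟩ := small_of_cpt hE hc (half_pos hpos)
  rw [h2 x, hx1, mul_one] at hx2
  linarith

/-- there are small compact perturbations of the identity -/
theorem not_discrete [CompleteSpace E] [TopologicalSpace.SeparableSpace E]
    (hE : ¬ FiniteDimensional ℝ E)
    (htr : ∀ x y : E, ‖x‖ = 1 → ‖y‖ = 1 → ∃ T : E ≃ₗᵢ[ℝ] E, T x = y)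
    {T : E ≃ₗᵢ[ℝ] E} (hT1 : T ≠ 1) (hT : Cpt T) {δ : ℝ} (hδ : 0 < δ) :
    ∃ g : E ≃ₗᵢ[ℝ] E, g ≠ 1 ∧ Cpt g ∧ ‖op g - 1‖ < δ := by
  by_contra hcon
  have hdisc : ∀ g : E ≃ₗᵢ[ℝ] E, Cpt g → ‖op g - 1‖ < δ → g = 1 := by
    intro g h1 h2
    by_contra h3
    exact hcon ⟨g, h3, h1, h2⟩
  have hat : AT (⊤ : Subgroup (E ≃ₗᵢ[ℝ] E)) := by
    intro x y hx hy ε hε
    obtain ⟨T, hT⟩ := htr x y hx hy
    exact ⟨T, trivial, by rw [hT, sub_self, norm_zero]; exact hε⟩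
  have htr' : ∀ x y : E, ‖x‖ = 1 → ‖y‖ = 1 → ∃ T ∈ (⊤ : Subgroup (E ≃ₗᵢ[ℝ] E)), T x = y := by
    intro x y hx hy
    obtain ⟨T, hT⟩ := htr x y hx hy
    exact ⟨T, trivial, hT⟩
  set η : ℝ := min 1 (δ / 52) with hη
  have hη0 : 0 < η := by positivity
  have hη1 : η ≤ 1 := min_le_left _ _
  have hηδ : 26 * η < δ := by
    have : η ≤ δ / 52 := min_le_right _ _
    linarith
  obtain ⟨m, f, r, hr, hf⟩ := exists_net (K := (op T - 1 : E →L[ℝ] E)) hT (half_pos hη0)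
  have hcm : ∀ g : E ≃ₗᵢ[ℝ] E, (∀ i, ‖g (f i) - f i‖ ≤ r) → cm T g = 1 := by
    intro g hg
    apply eq_one_of_DD hE hat (hT.cm g)
    refine loc_single hE htr' (cm T g) f hr (fun u _ hu => ?_)
    have h1 : Nr (op T - 1 : E →L[ℝ] E) η (u * g) := by
      have := (hf u hu).mul (hf g hg)
      rwa [add_halves] at this
    have h2 : Nr (op T - 1 : E →L[ℝ] E) η g := (hf g hg).mono (by linarith)
    have h3 : Nr (op T - 1 : E →L[ℝ] E) η u := (hf u hu).mono (by linarith)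
    have c1 := cm_comm hT hdisc hη0.le hη1 hηδ h1 h2
    have c2 := cm_comm hT hdisc hη0.le hη1 hηδ h3 h2
    have e1 : u * cm T g * u⁻¹ = cm T (u * g) * (cm T u)⁻¹ := by
      unfold cm
      group
    rw [e1]
    exact (c1.mul_left c2.inv_left).eq
  apply hT1
  apply eq_one_of_DD hE hat hT
  refine loc_single hE htr' T f hr (fun u _ hu => ?_)
  have h1 := hcm u hu
  have h2 : u * T * u⁻¹ = T := by
    unfold cm at h1
    exact mul_inv_eq_one.1 h1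
  rw [h2]

/-- a nontrivial compact perturbation of the identity -/
theorem paral_cpt [CompleteSpace E] [TopologicalSpace.SeparableSpace E]
    (hE : ¬ FiniteDimensional ℝ E)
    (htr : ∀ x y : E, ‖x‖ = 1 → ‖y‖ = 1 → ∃ T : E ≃ₗᵢ[ℝ] E, T x = y)
    {T : E ≃ₗᵢ[ℝ] E} (hT1 : T ≠ 1) (hT : Cpt T) (x y : E) :
    ‖x + y‖ ^ 2 + ‖x - y‖ ^ 2 = 2 * ‖x‖ ^ 2 + 2 * ‖y‖ ^ 2 := by
  choose g hg1 hg2 hg3 using fun n : ℕ => not_discrete hE htr hT1 hT (δ := 1 / ((n : ℝ) + 1))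
    (by positivity)
  refine paral_small hE (fun x y hx hy ε hε => ?_) g hg1 hg2 ?_ x y
  · obtain ⟨S, hS⟩ := htr x y hx hy
    exact ⟨S, by rw [hS, sub_self, norm_zero]; exact hε⟩
  exact squeeze_zero (fun n => norm_nonneg _) (fun n => (hg3 n).le)
    (tendsto_one_div_add_atTop_nhds_zero_nat (𝕜 := ℝ))

end Pool.Agent.U559.CP
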