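import Pool.Agent.U559.CP.Fin

/-!
# Exponentials of finite-rank skew operators
-/

set_option autoImplicit false
set_option linter.unusedSectionVars false
set_option linter.style.haveILetI false

namespace Pool.Agent.U559.CP

open Pool.H590R3.Ab Pool.Agent.W687.Rot NormedSpace Filter Topology

variable {Y : Type*} [NormedAddCommGroup Y] [NormedSpace ℝ Y] [CompleteSpace Y]

lemma Sk.exp_le {D : Y →L[ℝ] Y} (h : Sk D) : ‖exp D‖ ≤ 1 := by
  letI : NormedAlgebra ℚ (Y →L[ℝ] Y) := NormedAlgebra.restrictScalars ℚ ℝ (Y →L[ℝ] Y)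
  have key : ∀ ε : ℝ, 0 < ε → ‖exp D‖ ≤ Real.exp (2 * ε) := by
    intro ε hε
    obtain ⟨δ, hδ, h1⟩ := h ε hε
    have hd := hasDerivAt_exp_smul_const (𝕂 := ℝ) D 0
    rw [hasDerivAt_iff_isLittleO] at hd
    have h2 := hd.def hε
    obtain ⟨r, hr, h3⟩ := Metric.eventually_nhds_iff.1 h2
    obtain ⟨n, hn⟩ := exists_nat_gt (1 / min δ r)
    have hm : 0 < min δ r := lt_min hδ hr
    have hn0 : (0 : ℝ) < n := lt_trans (by positivity) hn
    have ht : 1 / (n : ℝ) < min δ r := by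
      rw [div_lt_iff₀ hm] at hn
      rw [div_lt_iff₀ hn0]
      linarith
    set t : ℝ := 1 / n with htd
    have ht0 : 0 < t := by positivity
    have h4 := h3 (y := t) (by
      rw [Real.dist_eq, sub_zero, abs_of_pos ht0]
      exact ht.trans_le (min_le_right _ _))
    simp only [zero_smul, exp_zero, one_mul, sub_zero] at h4
    have h5 := h1 t (by
      rw [abs_of_pos ht0]
      exact ht.le.trans (min_le_left _ _))
    rw [abs_of_pos ht0] at h5
    rw [Real.norm_of_nonneg ht0.le] at h4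
    have h6 : ‖exp (t • D)‖ ≤ 1 + 2 * ε * t := by
      have e1 : exp (t • D) = (1 + t • D) + (exp (t • D) - 1 - t • D) := by abel
      rw [e1]
      refine (norm_add_le _ _).trans ?_
      linarith
    have h7 : exp D = exp (t • D) ^ n := by
      rw [← exp_nsmul]
      congr 1
      rw [← Nat.cast_smul_eq_nsmul ℝ, smul_smul, htd, mul_one_div, div_self hn0.ne', one_smul]
    have h8 : ‖exp (t • D) ^ n‖ ≤ ‖exp (t • D)‖ ^ n := by
      rcases Nat.eq_zero_or_pos n with h0 | h0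
      · rw [h0] at hn0
        simp at hn0
      · exact norm_pow_le' _ h0
    rw [h7]
    refine h8.trans ?_
    have h9 : 1 + 2 * ε * t ≤ Real.exp (2 * ε * t) := by
      have := Real.add_one_le_exp (2 * ε * t)
      linarith
    calc ‖exp (t • D)‖ ^ n ≤ Real.exp (2 * ε * t) ^ n :=
          pow_le_pow_left₀ (norm_nonneg _) (h6.trans h9) n
      _ = Real.exp (2 * ε) := by
          rw [← Real.exp_nat_mul, htd]
          congr 1
          field_simp
  have hlim : Tendsto (fun ε : ℝ => Real.exp (2 * ε)) (𝓝[>] 0) (𝓝 1) := by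
    have h1 : Tendsto (fun ε : ℝ => Real.exp (2 * ε)) (𝓝 0) (𝓝 (Real.exp (2 * 0))) := by
      apply Continuous.tendsto
      fun_prop
    rw [mul_zero, Real.exp_zero] at h1
    exact h1.mono_left nhdsWithin_le_nhds
  exact ge_of_tendsto hlim (by
    filter_upwards [self_mem_nhdsWithin] with ε hε
    exact key ε hε)

/-- the exponential as an isometry -/
lemma exists_iso {D : Y →L[ℝ] Y} (h : Sk D) : ∃ U : Y ≃ₗᵢ[ℝ] Y, ∀ y, U y = exp D y := by
  letI : NormedAlgebra ℚ (Y →L[ℝ] Y) := NormedAlgebra.restrictScalars ℚ ℝ (Y →L[ℝ] Y)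
  have h1 : exp D * exp (-D) = 1 := by
    rw [← exp_add_of_commute (Commute.refl D).neg_right, add_neg_cancel, exp_zero]
  have h2 : exp (-D) * exp D = 1 := by
    rw [← exp_add_of_commute (Commute.refl D).neg_left, neg_add_cancel, exp_zero]
  have h3 : ‖exp D‖ ≤ 1 := h.exp_le
  have h4 : ‖exp (-D)‖ ≤ 1 := by
    have := (h.smul (-1)).exp_le
    rwa [neg_one_smul] at this
  refine ⟨{ toFun := fun y => exp D y
            invFun := fun y => exp (-D) y
            map_add' := fun x y => map_add _ _ _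
            map_smul' := fun r x => map_smul _ _ _
            left_inv := fun y => DFunLike.congr_fun h2 y
            right_inv := fun y => DFunLike.congr_fun h1 y
            norm_map' := fun y => ?_ }, fun y => rfl⟩
  show ‖exp D y‖ = ‖y‖
  apply le_antisymm
  · exact ((exp D).le_opNorm y).trans (mul_le_of_le_one_left (norm_nonneg _) h3)
  · have h5 : exp (-D) (exp D y) = y := DFunLike.congr_fun h2 y
    calc ‖y‖ = ‖exp (-D) (exp D y)‖ := by rw [h5]
      _ ≤ ‖exp (-D)‖ * ‖exp D y‖ := (exp (-D)).le_opNorm _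
      _ ≤ _ := mul_le_of_le_one_left (norm_nonneg _) h4

lemma exp_range {D : Y →L[ℝ] Y} (hfd : FiniteDimensional ℝ (LinearMap.range (D : Y →ₗ[ℝ] Y))) (y : Y) :
    exp D y - y ∈ LinearMap.range (D : Y →ₗ[ℝ] Y) := by
  have h1 := exp_series_hasSum_exp' (𝕂 := ℝ) D
  have h2 := (ContinuousLinearMap.apply ℝ Y y : (Y →L[ℝ] Y) →L[ℝ] Y).hasSum h1
  have h3 := (hasSum_nat_add_iff' (f := fun n : ℕ =>
    (ContinuousLinearMap.apply ℝ Y y : (Y →L[ℝ] Y) →L[ℝ] Y) (((n.factorial : ℝ)⁻¹) • D ^ n)) 1).2 h2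
  have hcl : IsClosed ((LinearMap.range (D : Y →ₗ[ℝ] Y) : Submodule ℝ Y) : Set Y) :=
    Submodule.closed_of_finiteDimensional _
  have h4 : (ContinuousLinearMap.apply ℝ Y y : (Y →L[ℝ] Y) →L[ℝ] Y) (exp D) -
      ∑ i ∈ Finset.range 1, (ContinuousLinearMap.apply ℝ Y y : (Y →L[ℝ] Y) →L[ℝ] Y)
        (((i.factorial : ℝ)⁻¹) • D ^ i) = exp D y - y := by
    simp
  rw [h4] at h3
  refine hcl.mem_of_tendsto h3 (Eventually.of_forall fun s => ?_)
  refine Submodule.sum_mem _ (fun n _ => ?_)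
  have h5 : (ContinuousLinearMap.apply ℝ Y y : (Y →L[ℝ] Y) →L[ℝ] Y)
      ((((n + 1).factorial : ℝ)⁻¹) • D ^ (n + 1)) =
      D ((((n + 1).factorial : ℝ)⁻¹) • (D ^ n) y) := by
    show (((n + 1).factorial : ℝ)⁻¹) • (D ^ (n + 1)) y = _
    rw [pow_succ', map_smul]
    rfl
  rw [h5]
  exact ⟨_, rfl⟩

/-- from a finite-rank skew operator to an isometry -/
lemma exists_fr {D : Y →L[ℝ] Y} (h : Sk D) (hD : D ≠ 0)
    (hfd : FiniteDimensional ℝ (LinearMap.range (D : Y →ₗ[ℝ] Y))) :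
    ∃ U : Y ≃ₗᵢ[ℝ] Y, U ≠ 1 ∧ Fr U := by
  letI : NormedAlgebra ℚ (Y →L[ℝ] Y) := NormedAlgebra.restrictScalars ℚ ℝ (Y →L[ℝ] Y)
  obtain ⟨s, hs⟩ : ∃ s : ℝ, exp (s • D) ≠ 1 := by
    by_contra hcon
    push Not at hcon
    have hd := hasDerivAt_exp_smul_const (𝕂 := ℝ) D 0
    rw [zero_smul, exp_zero, one_mul] at hd
    have hd2 : HasDerivAt (fun u : ℝ => exp (u • D)) (0 : Y →L[ℝ] Y) 0 := by
      have : (fun u : ℝ => exp (u • D)) = fun _ => (1 : Y →L[ℝ] Y) := by
        funext u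
        exact hcon u
      rw [this]
      exact hasDerivAt_const _ _
    exact hD (hd.unique hd2)
  obtain ⟨U, hU⟩ := exists_iso (h.smul s)
  refine ⟨U, ?_, ?_⟩
  · rintro rfl
    apply hs
    ext y
    rw [← hU]
    rfl
  · have hle : LinearMap.range ((s • D : Y →L[ℝ] Y) : Y →ₗ[ℝ] Y) ≤ LinearMap.range (D : Y →ₗ[ℝ] Y) := by
      rintro _ ⟨y, rfl⟩
      exact (LinearMap.range (D : Y →ₗ[ℝ] Y)).smul_mem s ⟨y, rfl⟩
    haveI : FiniteDimensional ℝ (LinearMap.range ((s • D : Y →L[ℝ] Y) : Y →ₗ[ℝ] Y)) :=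
      Submodule.finiteDimensional_of_le hle
    refine ⟨LinearMap.range (D : Y →ₗ[ℝ] Y), hfd, fun y => ?_⟩
    rw [hU]
    exact hle (exp_range inferInstance y)

end Pool.Agent.U559.CP
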