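import Pool.Agent.U559.CP.Spec
import Pool.Agent.U559.CP.Alg

/-!
# Finite-rank skew operators from compact perturbations
-/

set_option autoImplicit false
set_option linter.unusedSectionVars false
set_option linter.style.haveILetI false

namespace Pool.Agent.U559.CP

open Pool.H590R3.Ab Pool.Agent.W687.Rot

variable {Y : Type*} [NormedAddCommGroup Y] [NormedSpace ℝ Y]

/-- a compact operator which is the identity on a subspace -/
lemma fd_of_compact {q : Y →L[ℝ] Y} (hq : IsCompactOperator q) {W : Submodule ℝ Y}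
    (hW : ∀ w ∈ W, q w = w) : FiniteDimensional ℝ W := by
  set F : Submodule ℝ Y := LinearMap.ker ((1 - q : Y →L[ℝ] Y) : Y →ₗ[ℝ] Y) with hF
  have hmF : ∀ v, v ∈ F ↔ q v = v := by
    intro v
    rw [hF, LinearMap.mem_ker]
    show v - q v = 0 ↔ q v = v
    rw [sub_eq_zero]
    exact eq_comm
  have hWF : W ≤ F := fun w hw => (hmF w).2 (hW w hw)
  have hFc : IsClosed (F : Set Y) := (1 - q : Y →L[ℝ] Y).isClosed_ker
  have hK := hq.isCompact_closure_image_closedBall (𝕜₁ := ℝ) (σ₁₂ := RingHom.id ℝ) (f := (q : Y →ₗ[ℝ] Y)) 1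
  have hemb : Topology.IsClosedEmbedding (Subtype.val : F → Y) := hFc.isClosedEmbedding_subtypeVal
  have h1 : IsCompact (Metric.closedBall (0 : F) 1) := by
    have h2 := hemb.isCompact_preimage hK
    refine h2.of_isClosed_subset Metric.isClosed_closedBall ?_
    intro v hv
    rw [mem_closedBall_zero_iff] at hv
    apply subset_closure
    refine ⟨v, ?_, (hmF v).1 v.2⟩
    rw [mem_closedBall_zero_iff]
    exact hv
  haveI : FiniteDimensional ℝ F := FiniteDimensional.of_isCompact_closedBall ℝ one_pos h1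
  exact Submodule.finiteDimensional_of_le hWF

variable [CompleteSpace Y]

lemma cpt_Nn {T : Y ≃ₗᵢ[ℝ] Y} (hT : IsCompactOperator (op T - 1 : Y →L[ℝ] Y)) :
    IsCompactOperator (Nn T) := by
  have h1 : op T⁻¹ - 1 = -(op T⁻¹ * (op T - 1)) := by
    rw [mul_sub, ← op_mul, inv_mul_cancel, op_one, mul_one, neg_sub]
  have h2 : Nn T = (1 / 2 : ℝ) • ((op T - 1) + (op T⁻¹ - 1)) := by
    unfold Nn Co
    module
  have h3 : IsCompactOperator (op T⁻¹ * (op T - 1) : Y →L[ℝ] Y) := hT.clm_comp (op T⁻¹)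
  have h4 : IsCompactOperator (op T⁻¹ - 1 : Y →L[ℝ] Y) := by
    rw [h1]
    exact h3.neg
  rw [h2]
  exact (hT.add h4).smul (1 / 2 : ℝ)

lemma cpt_q {T : Y ≃ₗᵢ[ℝ] Y} (hT : IsCompactOperator (op T - 1 : Y →L[ℝ] Y)) {c : ℝ} (hc : 0 < c) :
    IsCompactOperator (1 - Ps T (bd c) : Y →L[ℝ] Y) := by
  have h1 : (1 - Ps T (bd c) : Y →L[ℝ] Y) = -(Ps T (gam c) * Nn T) := by
    ext z
    have := gam_apply T hc z
    show z - Ps T (bd c) z = -(Ps T (gam c) (Nn T z))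
    rw [← this, neg_sub]
  rw [h1]
  have h2 : IsCompactOperator (Ps T (gam c) * Nn T : Y →L[ℝ] Y) := (cpt_Nn hT).clm_comp (Ps T (gam c))
  exact h2.neg

lemma fd_q {T : Y ≃ₗᵢ[ℝ] Y} (hT : IsCompactOperator (op T - 1 : Y →L[ℝ] Y)) {c : ℝ} (hc : 0 < c) :
    FiniteDimensional ℝ (LinearMap.range ((1 - Ps T (bd c) : Y →L[ℝ] Y) : Y →ₗ[ℝ] Y)) := by
  refine fd_of_compact (cpt_q hT (half_pos hc)) ?_
  rintro _ ⟨y, rfl⟩
  have h1 : (1 - Ps T (bd (c / 2))) * (1 - Ps T (bd c)) = (1 - Ps T (bd c)) := by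
    rw [mul_sub, mul_one, sub_mul, one_mul, bd_bd (half_pos hc) le_rfl T]
    abel
  exact DFunLike.congr_fun h1 y

lemma Dd_fr {T : Y ≃ₗᵢ[ℝ] Y} (hT : IsCompactOperator (op T - 1 : Y →L[ℝ] Y)) {e : ℝ} (he : 0 < e)
    (B : Y →L[ℝ] Y) : FiniteDimensional ℝ (LinearMap.range (Dd T e B : Y →ₗ[ℝ] Y)) := by
  obtain ⟨c, hc, h⟩ := pDp T he B
  set p := Ps T (bd c) with hp
  haveI := fd_q hT hc
  set D := Dd T e B with hD
  have h1 : ∀ y, D y = (1 - p) (D y) + (p * D) ((1 - p) y) := by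
    intro y
    have h2 : p (D (p y)) = 0 := DFunLike.congr_fun h y
    show D y = (D y - p (D y)) + p (D (y - p y))
    rw [map_sub, map_sub, h2]
    abel
  have hle : LinearMap.range (D : Y →ₗ[ℝ] Y) ≤
      LinearMap.range ((1 - p : Y →L[ℝ] Y) : Y →ₗ[ℝ] Y) ⊔
      (LinearMap.range ((1 - p : Y →L[ℝ] Y) : Y →ₗ[ℝ] Y)).map ((p * D : Y →L[ℝ] Y) : Y →ₗ[ℝ] Y) := by
    rintro _ ⟨y, rfl⟩
    show D y ∈ _
    rw [h1 y]
    exact Submodule.add_mem_sup ⟨_, rfl⟩ ⟨_, ⟨y, rfl⟩, rfl⟩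
  exact Submodule.finiteDimensional_of_le hle

/-- skew operators -/
def Sk (B : Y →L[ℝ] Y) : Prop :=
  ∀ ε : ℝ, 0 < ε → ∃ δ : ℝ, 0 < δ ∧ ∀ t : ℝ, |t| ≤ δ → ‖(1 : Y →L[ℝ] Y) + t • B‖ ≤ 1 + ε * |t|

lemma Ad_skew (T : Y ≃ₗᵢ[ℝ] Y) (B : Y →L[ℝ] Y) (t : ℝ) :
    ‖(1 : Y →L[ℝ] Y) + t • Ad T B‖ = ‖(1 : Y →L[ℝ] Y) + t • B‖ := by
  have h1 : Ad T ((1 : Y →L[ℝ] Y) + t • B) = 1 + t • Ad T B := by
    rw [map_add, map_smul]
    congr 1
    rw [Ad_apply, one_mul, ← op_mul, mul_inv_cancel, op_one]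
  rw [← h1, (Ad T).norm_map]

lemma Sk.ad {B : Y →L[ℝ] Y} (h : Sk B) (T : Y ≃ₗᵢ[ℝ] Y) : Sk (Ad T B) := by
  intro ε hε
  obtain ⟨δ, hδ, h1⟩ := h ε hε
  exact ⟨δ, hδ, fun t ht => by rw [Ad_skew]; exact h1 t ht⟩

lemma Sk.smul {B : Y →L[ℝ] Y} (h : Sk B) (s : ℝ) : Sk (s • B) := by
  intro ε hε
  obtain ⟨δ, hδ, h1⟩ := h (ε / (|s| + 1)) (by positivity)
  refine ⟨δ / (|s| + 1), by positivity, fun t ht => ?_⟩
  have hs : 0 ≤ |s| := abs_nonneg s
  have ht0 : 0 ≤ |t| := abs_nonneg t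
  rw [le_div_iff₀ (by positivity)] at ht
  have h2 := h1 (t * s) (by
    rw [abs_mul]
    nlinarith)
  rw [smul_smul]
  refine h2.trans ?_
  rw [abs_mul]
  have h3 : ε / (|s| + 1) * (|t| * |s|) = ε * |t| * (|s| / (|s| + 1)) := by ring
  have h4 : |s| / (|s| + 1) ≤ 1 := by
    rw [div_le_one (by positivity)]
    linarith
  have h5 : ε * |t| * (|s| / (|s| + 1)) ≤ ε * |t| :=
    mul_le_of_le_one_right (by positivity) h4
  linarith

lemma Sk.dd {B : Y →L[ℝ] Y} (h : Sk B) (T : Y ≃ₗᵢ[ℝ] Y) {e : ℝ} (he : 0 < e) : Sk (Dd T e B) := by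
  have hg : ContDiff ℝ 2 (fun u : ℝ => 1 - bd e u) := contDiff_const.sub (bd_contDiff e)
  set a : ℤ → ℝ := cg (fun u : ℝ => 1 - bd e u) with ha
  have hsm : Summable (fun k => |a k|) := sm hg
  have hD : Dd T e B = ∑' k : ℤ, a k • Ad (T ^ k) B := by
    have h1 : Dd T e B = Ps (Ad T) (fun u : ℝ => 1 - bd e u) B := by
      rw [← Ps_sub (Ad T) contDiff_const (bd_contDiff e), Ps_one]
      rfl
    rw [h1]
    unfold Ps
    rw [Fop_at _ hsm]
    refine tsum_congr (fun k => ?_)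
    rw [Ad_zpow]
  set A : ℝ := ∑' k, |a k| with hA
  have hA0 : 0 ≤ A := tsum_nonneg (fun _ => abs_nonneg _)
  set c : ℝ := A + 1 with hc
  have hc0 : 0 < c := by positivity
  intro ε hε
  obtain ⟨δ, hδ, h1⟩ := h (ε / c) (by positivity)
  refine ⟨δ / c, by positivity, fun t ht => ?_⟩
  rw [le_div_iff₀ hc0] at ht
  have ht0 : 0 ≤ |t| := abs_nonneg t
  have hterm : ∀ k : ℤ, ‖(|a k| / c) • (1 : Y →L[ℝ] Y) + (t * a k) • Ad (T ^ k) B‖ ≤
      |a k| / c * (1 + ε * |t|) := by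
    intro k
    have hb : ∀ s : ℝ, |s| = |t| * c → ‖(1 : Y →L[ℝ] Y) + s • Ad (T ^ k) B‖ ≤ 1 + ε * |t| := by
      intro s hs
      rw [Ad_skew]
      refine (h1 s (by rw [hs]; exact ht)).trans ?_
      rw [hs]
      have : ε / c * (|t| * c) = ε * |t| := by field_simp
      rw [this]
    have hak : 0 ≤ |a k| / c := by positivity
    rcases le_total 0 (a k) with h0 | h0
    · have h2 : (|a k| / c) • (1 : Y →L[ℝ] Y) + (t * a k) • Ad (T ^ k) B =
          (|a k| / c) • ((1 : Y →L[ℝ] Y) + (t * c) • Ad (T ^ k) B) := by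
        rw [smul_add, smul_smul, abs_of_nonneg h0]
        congr 2
        field_simp
      rw [h2, norm_smul, Real.norm_of_nonneg hak]
      exact mul_le_mul_of_nonneg_left (hb _ (by rw [abs_mul, abs_of_pos hc0])) hak
    · have h2 : (|a k| / c) • (1 : Y →L[ℝ] Y) + (t * a k) • Ad (T ^ k) B =
          (|a k| / c) • ((1 : Y →L[ℝ] Y) + (-(t * c)) • Ad (T ^ k) B) := by
        rw [smul_add, smul_smul, abs_of_nonpos h0]
        congr 2
        field_simp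
      rw [h2, norm_smul, Real.norm_of_nonneg hak]
      exact mul_le_mul_of_nonneg_left
        (hb _ (by rw [abs_neg, abs_mul, abs_of_pos hc0])) hak
  have hs1 : Summable (fun k : ℤ => (|a k| / c) • (1 : Y →L[ℝ] Y)) :=
    (hsm.div_const c).smul_const _
  have hs2 : Summable (fun k : ℤ => a k • Ad (T ^ k) B) := by
    refine Summable.of_norm_bounded (hsm.mul_right ‖B‖) (fun k => ?_)
    rw [norm_smul, Real.norm_eq_abs, (Ad (T ^ k)).norm_map]
  have hs3 : Summable (fun k : ℤ => (t * a k) • Ad (T ^ k) B) := by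
    refine (hs2.const_smul t).congr (fun k => ?_)
    rw [smul_smul]
  have hsN : Summable (fun k : ℤ => |a k| / c * (1 + ε * |t|)) := (hsm.div_const c).mul_right _
  have heq : (1 : Y →L[ℝ] Y) + t • Dd T e B = (1 - A / c) • (1 : Y →L[ℝ] Y) +
      ∑' k : ℤ, ((|a k| / c) • (1 : Y →L[ℝ] Y) + (t * a k) • Ad (T ^ k) B) := by
    rw [hs1.tsum_add hs3, (hsm.div_const c).tsum_smul_const, tsum_div_const, ← hA]
    have h3 : ∑' k : ℤ, (t * a k) • Ad (T ^ k) B = t • Dd T e B := by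
      rw [hD, ← hs2.tsum_const_smul]
      refine tsum_congr (fun k => ?_)
      rw [smul_smul]
    rw [h3]
    module
  rw [heq]
  have h4 : ‖∑' k : ℤ, ((|a k| / c) • (1 : Y →L[ℝ] Y) + (t * a k) • Ad (T ^ k) B)‖ ≤
      A / c * (1 + ε * |t|) := by
    refine (tsum_of_norm_bounded hsN.hasSum hterm).trans ?_
    rw [tsum_mul_right, tsum_div_const]
  have h5 : ‖(1 - A / c) • (1 : Y →L[ℝ] Y)‖ ≤ 1 - A / c := by
    have h6 : 0 ≤ 1 - A / c := by
      rw [sub_nonneg, div_le_one hc0]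
      linarith
    rw [norm_smul, Real.norm_of_nonneg h6]
    refine mul_le_of_le_one_right h6 ?_
    exact ContinuousLinearMap.norm_id_le
  refine (norm_add_le _ _).trans ?_
  have h7 : A / c * (ε * |t|) ≤ ε * |t| := by
    refine mul_le_of_le_one_left (by positivity) ?_
    rw [div_le_one hc0]
    linarith
  nlinarith

end Pool.Agent.U559.CP
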