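import Pool.Agent.U559.CP.Alg

/-!
# The algebra acts irreducibly
-/

set_option autoImplicit false
set_option linter.unusedSectionVars false
set_option linter.style.haveILetI false

namespace Pool.Agent.U559.CP

variable {Y : Type*} [NormedAddCommGroup Y] [NormedSpace ℝ Y]

/-- transitivity in scaled form -/
lemma tr_scale (htr : ∀ x y : Y, ‖x‖ = 1 → ‖y‖ = 1 → ∃ T : Y ≃ₗᵢ[ℝ] Y, T x = y) {x y : Y}
    (hx : x ≠ 0) (hy : y ≠ 0) : ∃ (S : Y ≃ₗᵢ[ℝ] Y) (r : ℝ), r ≠ 0 ∧ S (r • x) = y := by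
  have hx' : 0 < ‖x‖ := norm_pos_iff.2 hx
  have hy' : 0 < ‖y‖ := norm_pos_iff.2 hy
  obtain ⟨S, hS⟩ := htr (‖x‖⁻¹ • x) (‖y‖⁻¹ • y)
    (by rw [norm_smul, norm_inv, norm_norm, inv_mul_cancel₀ hx'.ne'])
    (by rw [norm_smul, norm_inv, norm_norm, inv_mul_cancel₀ hy'.ne'])
  refine ⟨S, ‖y‖ * ‖x‖⁻¹, mul_ne_zero hy'.ne' (inv_ne_zero hx'.ne'), ?_⟩
  rw [mul_smul, map_smul, hS, smul_smul, mul_inv_cancel₀ hy'.ne', one_smul]

/-- the cyclic module -/
def cyc (z : Y) : Submodule ℝ Y :=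
  (Subalgebra.toSubmodule (AA Y)).map (LinearMap.applyₗ z : Module.End ℝ Y →ₗ[ℝ] Y)

lemma mem_cyc {z v : Y} : v ∈ cyc z ↔ ∃ e ∈ AA Y, e z = v := Iff.rfl

/-- elements of minimal rank -/
lemma exists_min (T1 : Y ≃ₗᵢ[ℝ] Y) (hT1 : T1 ≠ 1) (hfr : Fr T1) :
    ∃ a ∈ AA Y, a ≠ 0 ∧ FiniteDimensional ℝ (LinearMap.range a) ∧
      ∀ x ∈ AA Y, x ≠ 0 → FiniteDimensional ℝ (LinearMap.range x) →
        Module.finrank ℝ (LinearMap.range a) ≤ Module.finrank ℝ (LinearMap.range x) := by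
  classical
  let P : ℕ → Prop := fun n => ∃ a ∈ AA Y, a ≠ 0 ∧ FiniteDimensional ℝ (LinearMap.range a) ∧
    Module.finrank ℝ (LinearMap.range a) = n
  have hex : ∃ n, P n := by
    refine ⟨_, Lg T1 - 1, (AA Y).sub_mem (Lg_mem hfr) (AA Y).one_mem, ?_, ?_, rfl⟩
    · intro h
      apply hT1
      ext x
      have := LinearMap.congr_fun h x
      exact sub_eq_zero.1 this
    · obtain ⟨V, hV, h⟩ := hfr
      have hle : LinearMap.range (Lg T1 - 1) ≤ V := by
        rintro _ ⟨x, rfl⟩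
        exact h x
      exact Submodule.finiteDimensional_of_le hle
  obtain ⟨a, ha, ha0, hfd, hr⟩ := Nat.find_spec hex
  refine ⟨a, ha, ha0, hfd, fun x hx hx0 hxf => ?_⟩
  rw [hr]
  exact Nat.find_min' hex ⟨x, hx, hx0, hxf, rfl⟩

/-- nonzero vectors of a cyclic module generate it -/
lemma simple (htr : ∀ x y : Y, ‖x‖ = 1 → ‖y‖ = 1 → ∃ T : Y ≃ₗᵢ[ℝ] Y, T x = y)
    (T1 : Y ≃ₗᵢ[ℝ] Y) (hT1 : T1 ≠ 1) (hfr : Fr T1) {b : Module.End ℝ Y} (hb : b ∈ AA Y) {y : Y}
    (hby : b y ≠ 0) : ∃ e ∈ AA Y, e (b y) = y := by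
  have hy : y ≠ 0 := by
    rintro rfl
    exact hby (map_zero b)
  obtain ⟨a0, ha0, hne, hfd, hmin⟩ := exists_min T1 hT1 hfr
  obtain ⟨w, hw⟩ : ∃ w, a0 w ≠ 0 := by
    by_contra hcon
    push Not at hcon
    exact hne (LinearMap.ext hcon)
  obtain ⟨S, r, hr, hS⟩ := tr_scale htr hw hy
  set a := cE S a0 with ha
  have haA : a ∈ AA Y := cE_mem S ha0
  have hau : a (S (r • w)) = y := by
    rw [ha, cE_apply', map_smul, hS]
  set u := S (r • w) with hu
  have hrange : LinearMap.range a = (LinearMap.range a0).map (S.toLinearEquiv : Y →ₗ[ℝ] Y) := by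
    ext v
    constructor
    · rintro ⟨x, rfl⟩
      exact ⟨a0 (S⁻¹ x), ⟨_, rfl⟩, rfl⟩
    · rintro ⟨_, ⟨x, rfl⟩, rfl⟩
      exact ⟨S x, cE_apply' S a0 x⟩
  have hWfd : FiniteDimensional ℝ (LinearMap.range a) := by
    rw [hrange]
    infer_instance
  have hWr : Module.finrank ℝ (LinearMap.range a) = Module.finrank ℝ (LinearMap.range a0) := by
    rw [hrange]
    exact LinearEquiv.finrank_map_eq S.toLinearEquiv _
  have hcA : b * a ∈ AA Y := (AA Y).mul_mem hb haA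
  have hc0 : b * a ≠ 0 := by
    intro h
    have h1 : b (a u) = 0 := LinearMap.congr_fun h u
    rw [hau] at h1
    exact hby h1
  obtain ⟨d, hd, hcdc⟩ := semi hcA hc0
  -- the operator `x = a d b a`
  have hm : a * d * b ∈ AA Y := (AA Y).mul_mem ((AA Y).mul_mem haA hd) hb
  set m := a * d * b with hmdef
  have hxA : m * a ∈ AA Y := (AA Y).mul_mem hm haA
  have hx0 : m * a ≠ 0 := by
    intro h
    apply hcdc
    calc b * a * d * (b * a) = b * (m * a) := by rw [hmdef]; simp only [mul_assoc]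
      _ = 0 := by rw [h, mul_zero]
  have hxr : LinearMap.range (m * a) ≤ LinearMap.range a := by
    rintro _ ⟨v, rfl⟩
    exact ⟨d (b (a v)), rfl⟩
  have hxf : FiniteDimensional ℝ (LinearMap.range (m * a)) := Submodule.finiteDimensional_of_le hxr
  have hxeq : LinearMap.range (m * a) = LinearMap.range a := by
    refine Submodule.eq_of_le_of_finrank_le hxr ?_
    rw [hWr]
    exact hmin _ hxA hx0 hxf
  have hmW : ∀ v ∈ LinearMap.range a, m v ∈ LinearMap.range a := by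
    intro v _
    exact ⟨d (b v), rfl⟩
  have hsurj : Function.Surjective (m.restrict hmW) := by
    rintro ⟨v, hv⟩
    rw [← hxeq] at hv
    obtain ⟨s, hs⟩ := hv
    refine ⟨⟨a s, ⟨s, rfl⟩⟩, ?_⟩
    apply Subtype.ext
    exact hs
  have hinj : Function.Injective (m.restrict hmW) := LinearMap.injective_iff_surjective.2 hsurj
  have hinj' : ∀ v ∈ LinearMap.range a, ∀ v' ∈ LinearMap.range a, m v = m v' → v = v' := by
    intro v hv v' hv' h
    have := @hinj ⟨v, hv⟩ ⟨v', hv'⟩ (Subtype.ext h)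
    exact congrArg Subtype.val this
  -- the subspace `N`
  set N : Submodule ℝ Y := LinearMap.range a ⊓ cyc (b y) with hN
  have hNfd : FiniteDimensional ℝ N := Submodule.finiteDimensional_of_le inf_le_left
  have hmN : ∀ v ∈ N, m v ∈ N := by
    intro v hv
    refine ⟨hmW v hv.1, ?_⟩
    obtain ⟨e, he, hev⟩ := mem_cyc.1 hv.2
    exact mem_cyc.2 ⟨m * e, (AA Y).mul_mem hm he, by rw [← hev]; rfl⟩
  have hNinj : Function.Injective (m.restrict hmN) := by
    intro v v' h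
    apply Subtype.ext
    exact hinj' v v.2.1 v' v'.2.1 (congrArg Subtype.val h)
  have hNsurj := LinearMap.injective_iff_surjective.1 hNinj
  have hyW : y ∈ LinearMap.range a := ⟨u, hau⟩
  have hmy : m y ∈ N := by
    refine ⟨hmW y hyW, ?_⟩
    exact mem_cyc.2 ⟨a * d, (AA Y).mul_mem haA hd, rfl⟩
  obtain ⟨v, hv⟩ := hNsurj ⟨m y, hmy⟩
  have hv' : m v = m y := congrArg Subtype.val hv
  have hvy : (v : Y) = y := hinj' v v.2.1 y hyW hv'
  have := v.2.2
  rw [hvy] at this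
  exact mem_cyc.1 this

/-- the algebra acts irreducibly -/
lemma irr (hE : ¬ FiniteDimensional ℝ Y)
    (htr : ∀ x y : Y, ‖x‖ = 1 → ‖y‖ = 1 → ∃ T : Y ≃ₗᵢ[ℝ] Y, T x = y)
    (T1 : Y ≃ₗᵢ[ℝ] Y) (hT1 : T1 ≠ 1) (hfr : Fr T1) {y : Y} (hy : y ≠ 0) (z : Y) :
    ∃ e ∈ AA Y, e y = z := by
  by_contra hz
  change ¬ (z ∈ cyc y) at hz
  have step1 : ∀ b ∈ AA Y, b y = 0 → ∀ z', z' ∉ cyc y → b z' = 0 := by
    intro b hb hby z' hz'
    by_contra hbz
    have h1 : b (y + z') ≠ 0 := by rw [map_add, hby, zero_add]; exact hbz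
    obtain ⟨e, he, hez⟩ := simple htr T1 hT1 hfr hb h1
    rw [map_add, hby, zero_add] at hez
    have h2 : (e * b - 1) z' = y := by
      show e (b z') - z' = y
      rw [hez, add_sub_cancel_right]
    have hcA : e * b - 1 ∈ AA Y := (AA Y).sub_mem ((AA Y).mul_mem he hb) (AA Y).one_mem
    obtain ⟨e', he', h3⟩ := simple htr T1 hT1 hfr hcA (y := z') (by rw [h2]; exact hy)
    rw [h2] at h3
    exact hz' (mem_cyc.2 ⟨e', he', h3⟩)
  have step2 : ∀ b ∈ AA Y, b y = 0 → b = 0 := by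
    intro b hb hby
    ext z'
    by_cases hz' : z' ∈ cyc y
    · have h1 : z + z' ∉ cyc y := by
        intro h
        apply hz
        have := (cyc y).sub_mem h hz'
        rwa [add_sub_cancel_right] at this
      have h2 := step1 b hb hby _ h1
      rw [map_add, step1 b hb hby z hz, zero_add] at h2
      exact h2
    · exact step1 b hb hby z' hz'
  -- a fixed vector of `T1`
  obtain ⟨k, hk, hk0⟩ : ∃ k, T1 k = k ∧ k ≠ 0 := by
    by_contra hcon
    push Not at hcon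
    obtain ⟨V, hV, h⟩ := hfr
    apply hE
    let f : Y →ₗ[ℝ] V := LinearMap.codRestrict V (Lg T1 - 1) (fun x => h x)
    have hf : Function.Injective f := by
      rw [← LinearMap.ker_eq_bot, LinearMap.ker_eq_bot']
      intro x hx
      by_contra hx0
      have h1 : T1 x - x = 0 := congrArg Subtype.val hx
      exact hx0 (hcon x (sub_eq_zero.1 h1))
    exact FiniteDimensional.of_injective f hf
  obtain ⟨S, r, hr, hS⟩ := tr_scale htr hk0 hy
  have h1 := step2 (cE S (Lg T1 - 1)) (cE_mem S ((AA Y).sub_mem (Lg_mem hfr) (AA Y).one_mem))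
    (by
      rw [← hS, cE_apply']
      show S (T1 (r • k) - r • k) = 0
      rw [map_smul, hk, sub_self, map_zero])
  apply hT1
  ext x
  have h2 := LinearMap.congr_fun h1 (S x)
  rw [cE_apply', LinearMap.zero_apply] at h2
  have h3 : (Lg T1 - 1) x = 0 := by
    have := congrArg S.symm h2
    rwa [S.symm_apply_apply, map_zero] at this
  exact sub_eq_zero.1 h3

end Pool.Agent.U559.CP
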