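import Pool.Agent.U559.CP.Disc

/-!
# Isometries which are strictly singular perturbations of the identity
-/

set_option autoImplicit false
set_option linter.unusedSectionVars false
set_option linter.style.haveILetI false

namespace Pool.Agent.U559.CP

open Filter Topology Pool.H590R3.Ab Pool.Agent.W687.Rot

variable {E : Type*} [NormedAddCommGroup E] [NormedSpace ℝ E]

/-- not bounded below on any infinite-dimensional subspace -/
def SSg (K : E → E) : Prop :=
  ∀ W : Submodule ℝ E, ¬ FiniteDimensional ℝ W → ∀ ε : ℝ, 0 < ε → ∃ x ∈ W, ‖x‖ = 1 ∧ ‖K x‖ < ε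

/-- finite-rank operators are compact -/
lemma cpt_of_fd {q : E →L[ℝ] E} (h : FiniteDimensional ℝ (LinearMap.range (q : E →ₗ[ℝ] E))) :
    IsCompactOperator q := by
  set W := LinearMap.range (q : E →ₗ[ℝ] E) with hW
  let q' : E →L[ℝ] W := q.codRestrict W (fun x => ⟨x, rfl⟩)
  haveI : ProperSpace W := FiniteDimensional.proper ℝ W
  have h0 : IsCompactOperator (id : W → W) := isCompactOperator_id
  have h1 : IsCompactOperator ((id : W → W) ∘ q') := h0.comp_clm q'
  exact h1.clm_comp W.subtypeL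

variable [CompleteSpace E]

lemma fd_q' {T : E ≃ₗᵢ[ℝ] E} (hT : SSg (fun z => T z - z)) {c : ℝ} (hc : 0 < c) :
    FiniteDimensional ℝ (LinearMap.range ((1 - Ps T (bd c) : E →L[ℝ] E) : E →ₗ[ℝ] E)) := by
  by_contra hcon
  set G := ‖Ps T (gam (c / 2))‖ with hG
  have hG0 : 0 ≤ G := norm_nonneg _
  obtain ⟨x, hx, hx1, hx2⟩ := hT _ hcon (1 / (G + 1)) (by positivity)
  obtain ⟨y, rfl⟩ := hx
  set x : E := (1 - Ps T (bd c) : E →L[ℝ] E) y with hxd
  have h1 : (1 - Ps T (bd (c / 2))) * (1 - Ps T (bd c)) = (1 - Ps T (bd c)) := by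
    rw [mul_sub, mul_one, sub_mul, one_mul, bd_bd (half_pos hc) le_rfl T]
    abel
  have h2 : x - Ps T (bd (c / 2)) x = x := DFunLike.congr_fun h1 y
  have h3 := gam_apply T (half_pos hc) x
  have h4 : ‖x‖ ≤ G * ‖T x - x‖ := by
    have h5 : Ps T (gam (c / 2)) (Nn T x) = -x := by
      rw [← h3]
      nth_rewrite 3 [← h2]
      abel
    rw [← norm_neg x, ← h5]
    refine ((Ps T (gam (c / 2))).le_opNorm _).trans ?_
    exact mul_le_mul_of_nonneg_left (Nn_le T x) hG0
  have hx1' : ‖x‖ = 1 := hx1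
  have hx2' : ‖T x - x‖ < 1 / (G + 1) := hx2
  rw [hx1'] at h4
  have h5 : G * ‖T x - x‖ ≤ G * (1 / (G + 1)) := mul_le_mul_of_nonneg_left hx2'.le hG0
  have h6 : G * (1 / (G + 1)) < 1 := by
    rw [mul_one_div, div_lt_one (by positivity)]
    linarith
  linarith

lemma cpt_Nn' {T : E ≃ₗᵢ[ℝ] E} (hT : SSg (fun z => T z - z)) : IsCompactOperator (Nn T) := by
  have h1 : ∀ k : ℕ, ∃ d : ℝ, 0 < d ∧ ‖Nn T * Ps T (bd d)‖ ≤ 1 / ((k : ℝ) + 1) := by
    intro k
    obtain ⟨d0, hd0, h⟩ := small (r := 1 / ((k : ℝ) + 1)) (by positivity)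
    have hm : 0 < min d0 1 := lt_min hd0 one_pos
    refine ⟨min d0 1 / 2, by positivity, ?_⟩
    have hgd : ContDiff ℝ 2 (fun u : ℝ => (u - 1) * b ((u - 1) / (min d0 1 / 2))) :=
      (contDiff_id.sub contDiff_const).mul
        (b_contDiff.comp ((contDiff_id.sub contDiff_const).div_const _))
    have h2 : Nn T * Ps T (bd (min d0 1 / 2)) =
        Ps T (fun u => (u - 1) * b ((u - 1) / (min d0 1 / 2))) := Co_Ps T (bd_contDiff _) 1
    rw [h2]
    refine (Ps_norm T hgd).trans (h _ (by positivity) ?_ ?_ 1)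
    · have := min_le_left d0 1
      linarith
    · have := min_le_right d0 1
      linarith
  choose d hd0 hd using h1
  let F : ℕ → E →L[ℝ] E := fun k => Nn T * (1 - Ps T (bd (d k)))
  have hF : ∀ k, IsCompactOperator (F k) := by
    intro k
    have h2 : IsCompactOperator (1 - Ps T (bd (d k)) : E →L[ℝ] E) := cpt_of_fd (fd_q' hT (hd0 k))
    exact h2.clm_comp (Nn T)
  have hlim : Tendsto F atTop (𝓝 (Nn T)) := by
    rw [tendsto_iff_norm_sub_tendsto_zero]
    refine squeeze_zero (fun k => norm_nonneg _) (fun k => ?_)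
      (tendsto_one_div_add_atTop_nhds_zero_nat (𝕜 := ℝ))
    have h3 : F k - Nn T = -(Nn T * Ps T (bd (d k))) := by
      show Nn T * (1 - Ps T (bd (d k))) - Nn T = _
      rw [mul_sub, mul_one]
      abel
    rw [h3, norm_neg]
    exact hd k
  exact isCompactOperator_of_tendsto hlim (Eventually.of_forall hF)

/-- strictly singular perturbations of the identity are compact perturbations -/
theorem cpt_of_ss {T : E ≃ₗᵢ[ℝ] E} (hT : SSg (fun z => T z - z)) : Cpt T := by
  have hN := cpt_Nn' hT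
  have hsq : (op T - 1) * (op T - 1) = (2 : ℝ) • (op T * Nn T) := by
    have h1 : op T * op T⁻¹ = 1 := by rw [← op_mul, mul_inv_cancel, op_one]
    have h2 : op T * Nn T = (1 / 2 : ℝ) • (op T * op T + 1) - op T := by
      unfold Nn Co
      rw [one_smul, mul_sub, mul_one, mul_smul_comm, mul_add, h1]
    rw [h2, mul_sub, sub_mul, mul_one, one_mul]
    module
  have hc2 : IsCompactOperator ((op T - 1) * (op T - 1) : E →L[ℝ] E) := by
    rw [hsq]
    have h3 : IsCompactOperator (op T * Nn T : E →L[ℝ] E) := hN.clm_comp (op T)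
    exact h3.smul (2 : ℝ)
  have hC : ∀ n : ℕ, IsCompactOperator ((op (T ^ n) - 1) * (op T - 1) : E →L[ℝ] E) := by
    intro n
    induction n with
    | zero =>
      rw [pow_zero, op_one, sub_self, zero_mul]
      exact isCompactOperator_zero
    | succ n ih =>
      have h4 : (op (T ^ (n + 1)) - 1) * (op T - 1) =
          op T * ((op (T ^ n) - 1) * (op T - 1)) + (op T - 1) * (op T - 1) := by
        rw [pow_succ', op_mul]
        noncomm_ring
      rw [h4]
      have h5 : IsCompactOperator (op T * ((op (T ^ n) - 1) * (op T - 1)) : E →L[ℝ] E) :=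
        ih.clm_comp (op T)
      exact h5.add hc2
  have hM : ∀ n : ℕ, IsCompactOperator (op (T ^ n) - 1 - (n : ℝ) • (op T - 1) : E →L[ℝ] E) := by
    intro n
    induction n with
    | zero =>
      rw [pow_zero, op_one, sub_self, Nat.cast_zero, zero_smul, sub_zero]
      exact isCompactOperator_zero
    | succ n ih =>
      have h1 : op (T ^ (n + 1)) - 1 - ((n + 1 : ℕ) : ℝ) • (op T - 1) =
          (op (T ^ n) - 1 - (n : ℝ) • (op T - 1)) + (op (T ^ n) - 1) * (op T - 1) := by
        rw [pow_succ, op_mul, sub_mul, one_mul, mul_sub, mul_one]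
        push_cast
        module
      rw [h1]
      exact ih.add (hC n)
  let F : ℕ → E →L[ℝ] E := fun n =>
    (-(1 / ((n : ℝ) + 1))) • (op (T ^ (n + 1)) - 1 - ((n + 1 : ℕ) : ℝ) • (op T - 1))
  have hF : ∀ n, IsCompactOperator (F n) := fun n => (hM (n + 1)).smul _
  have hlim : Tendsto F atTop (𝓝 (op T - 1)) := by
    rw [tendsto_iff_norm_sub_tendsto_zero]
    have h6 : Tendsto (fun n : ℕ => 2 * (1 / ((n : ℝ) + 1))) atTop (𝓝 0) := by
      have := (tendsto_one_div_add_atTop_nhds_zero_nat (𝕜 := ℝ)).const_mul 2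
      rwa [mul_zero] at this
    refine squeeze_zero (fun n => norm_nonneg _) (fun n => ?_) h6
    have hn : ((n : ℝ) + 1) ≠ 0 := by positivity
    have h7 : F n - (op T - 1) = (-(1 / ((n : ℝ) + 1))) • (op (T ^ (n + 1)) - 1) := by
      show (-(1 / ((n : ℝ) + 1))) • (op (T ^ (n + 1)) - 1 - ((n + 1 : ℕ) : ℝ) • (op T - 1)) -
        (op T - 1) = _
      rw [smul_sub (-(1 / ((n : ℝ) + 1))) (op (T ^ (n + 1)) - 1), smul_smul]
      have h8 : -(1 / ((n : ℝ) + 1)) * ((n + 1 : ℕ) : ℝ) = -1 := by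
        push_cast
        field_simp
      rw [h8, neg_one_smul]
      abel
    rw [h7, norm_smul, norm_neg, Real.norm_of_nonneg (by positivity), mul_comm]
    exact mul_le_mul_of_nonneg_right (norm_sub_one_le _) (by positivity)
  exact isCompactOperator_of_tendsto hlim (Eventually.of_forall hF)

end Pool.Agent.U559.CP
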