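import Pool.Agent.W687.RotMain

/-!
# Spectral calculus of conjugation by a compact perturbation of the identity
-/

set_option autoImplicit false
set_option linter.unusedSectionVars false
set_option linter.style.haveILetI false

namespace Pool.Agent.U559.CP

open Pool.H590R3.Ab Pool.Agent.W687.Rot

section abstract
variable {Z : Type*} [NormedAddCommGroup Z] [NormedSpace ℝ Z]

/-- Landau type inequality -/
lemma landau (U : Z ≃ₗᵢ[ℝ] Z) (w : Z) {δ : ℝ} (h : ‖Nn U w‖ ≤ δ) (n : ℕ) :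
    n * ‖U w - w‖ ≤ 2 * ‖w‖ + n ^ 2 * (2 * δ) := by
  have hδ : 0 ≤ δ := (norm_nonneg _).trans h
  obtain ⟨u, hu⟩ : ∃ u, u = U w - w := ⟨_, rfl⟩
  rw [← hu]
  have hUw : U w = w + u := by rw [hu]; abel
  have h0 : ‖U u - u‖ ≤ 2 * δ := by
    have hNn : U (Nn U w) = (1 / 2 : ℝ) • (U (U w) + w) - U w := by
      rw [Nn_apply]
      have h1 : Co U w = (1 / 2 : ℝ) • (U w + U⁻¹ w) := rfl
      have h2 : U (U⁻¹ w) = w := U.apply_symm_apply w
      rw [h1, map_sub, map_smul, map_add, h2]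
    have e1 : U u - u = (2 : ℝ) • U (Nn U w) := by
      rw [hNn, hUw, map_add, hUw]
      module
    rw [e1, norm_smul, U.norm_map, Real.norm_of_nonneg (by norm_num : (0:ℝ) ≤ 2)]
    linarith
  have hk : ∀ k : ℕ, ‖(U ^ k) w - w - (k : ℝ) • u‖ ≤ k ^ 2 * (2 * δ) := by
    intro k
    induction k with
    | zero => simp
    | succ k ih =>
      have e : (U ^ (k + 1)) w - w - ((k + 1 : ℕ) : ℝ) • u =
          U ((U ^ k) w - w - (k : ℝ) • u) + (k : ℝ) • (U u - u) := by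
        rw [pow_succ']
        show U ((U ^ k) w) - w - _ = _
        rw [map_sub, map_sub, map_smul, hUw]
        push_cast
        module
      rw [e]
      refine (norm_add_le _ _).trans ?_
      rw [U.norm_map, norm_smul, Real.norm_of_nonneg (Nat.cast_nonneg k)]
      have h1 : (k : ℝ) * ‖U u - u‖ ≤ k * (2 * δ) :=
        mul_le_mul_of_nonneg_left h0 (Nat.cast_nonneg k)
      have h2 : (0 : ℝ) ≤ k := Nat.cast_nonneg k
      push_cast
      nlinarith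
  have h1 := hk n
  have h2 : ‖(n : ℝ) • u‖ ≤ ‖(U ^ n) w - w‖ + ‖(U ^ n) w - w - (n : ℝ) • u‖ := by
    have : (n : ℝ) • u = ((U ^ n) w - w) - ((U ^ n) w - w - (n : ℝ) • u) := by abel
    calc ‖(n : ℝ) • u‖ = ‖((U ^ n) w - w) - ((U ^ n) w - w - (n : ℝ) • u)‖ := by rw [← this]
      _ ≤ _ := norm_sub_le _ _
  have h3 : ‖(U ^ n) w - w‖ ≤ 2 * ‖w‖ := by
    refine (norm_sub_le _ _).trans ?_
    rw [(U ^ n).norm_map]
    linarith
  rw [norm_smul, Real.norm_of_nonneg (Nat.cast_nonneg n)] at h2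
  linarith

lemma Nn_le (U : Z ≃ₗᵢ[ℝ] Z) (z : Z) : ‖Nn U z‖ ≤ ‖U z - z‖ := by
  have h1 : Nn U z = (1 / 2 : ℝ) • ((U z - z) + (U⁻¹ z - z)) := by
    rw [Nn_apply]
    have h1 : Co U z = (1 / 2 : ℝ) • (U z + U⁻¹ z) := rfl
    rw [h1]
    module
  have h2 : ‖U⁻¹ z - z‖ = ‖U z - z‖ := by
    rw [← U.norm_map (U⁻¹ z - z), map_sub]
    have h2 : U (U⁻¹ z) = z := U.apply_symm_apply z
    rw [h2, norm_sub_rev]
  rw [h1, norm_smul, Real.norm_of_nonneg (by norm_num : (0:ℝ) ≤ 1 / 2)]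
  have := norm_add_le (U z - z) (U⁻¹ z - z)
  linarith

variable [CompleteSpace Z]

lemma Nn_small {r : ℝ} (hr : 0 < r) : ∃ d0 : ℝ, 0 < d0 ∧ ∀ d : ℝ, 0 < d → d < d0 → d ≤ 1 →
    ∀ (U : Z ≃ₗᵢ[ℝ] Z) (z : Z), Ps U (bd d) z = z → ‖Nn U z‖ ≤ r * ‖z‖ := by
  obtain ⟨d0, hd0, h⟩ := small hr
  refine ⟨d0, hd0, fun d h1 h2 h3 U z hz => ?_⟩
  have hgd : ContDiff ℝ 2 (fun u : ℝ => (u - 1) * b ((u - 1) / d)) :=
    (contDiff_id.sub contDiff_const).mul
      (b_contDiff.comp ((contDiff_id.sub contDiff_const).div_const _))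
  have h4 : Nn U z = Ps U (fun u => (u - 1) * b ((u - 1) / d)) z := by
    have : Nn U * Ps U (bd d) = Ps U (fun u => (u - 1) * b ((u - 1) / d)) :=
      Co_Ps U (bd_contDiff d) 1
    rw [← this]
    show _ = Nn U (Ps U (bd d) z)
    rw [hz]
  rw [h4]
  refine (ContinuousLinearMap.le_opNorm _ _).trans ?_
  exact mul_le_mul_of_nonneg_right ((Ps_norm U hgd).trans (h d h1 h2 h3 1)) (norm_nonneg _)

/-- vectors without spectrum away from one are fixed -/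
lemma fix_of_bd (U : Z ≃ₗᵢ[ℝ] Z) (z : Z) (h : ∀ e : ℝ, 0 < e → Ps U (bd e) z = z) : U z = z := by
  have h1 : Nn U z = 0 := by
    by_contra hne
    have hpos : 0 < ‖Nn U z‖ := norm_pos_iff.2 hne
    obtain ⟨d0, hd0, h2⟩ := Nn_small (Z := Z) (r := ‖Nn U z‖ / (2 * (‖z‖ + 1))) (by positivity)
    set e := min d0 1 / 2 with he
    have hm : 0 < min d0 1 := lt_min hd0 one_pos
    have h3 := h2 e (by positivity) (by
      have := min_le_left d0 1
      linarith) (by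
      have := min_le_right d0 1
      linarith) U z (h e (by positivity))
    have h4 : ‖Nn U z‖ / (2 * (‖z‖ + 1)) * ‖z‖ < ‖Nn U z‖ := by
      have hy0 : 0 ≤ ‖z‖ := norm_nonneg z
      rw [div_mul_eq_mul_div, div_lt_iff₀ (by positivity)]
      nlinarith
    linarith
  apply unip_vec
  rw [Nn_apply] at h1
  have h2 : Co U z = (1 / 2 : ℝ) • (U z + U⁻¹ z) := rfl
  rw [h2] at h1
  have h3 := congrArg U h1
  have h4 : U (U⁻¹ z) = z := U.apply_symm_apply z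
  rw [map_sub, map_smul, map_add, h4, map_zero] at h3
  have h5 : (2 : ℝ) • ((1 / 2 : ℝ) • (U (U z) + z) - U z) = 0 := by rw [h3, smul_zero]
  have h6 : U (U z) = (2 : ℝ) • ((1 / 2 : ℝ) • (U (U z) + z) - U z) + ((2 : ℝ) • U z - z) := by
    module
  rw [h5, zero_add] at h6
  exact h6

lemma zero_of {e : ℝ} (he : 0 < e) : ∃ c : ℝ, 0 < c ∧ ∀ (L R : Z ≃ₗᵢ[ℝ] Z) (s : Z),
    Ps L (bd c) s = s → Ps R (bd c) s = s → Ps (L * R) (bd e) s = 0 → s = 0 := by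
  set K : ℝ := ∑' k, |cg (gam e) k| with hK
  have hK0 : 0 ≤ K := tsum_nonneg (fun _ => abs_nonneg _)
  obtain ⟨n, hn⟩ := exists_nat_gt (16 * (K + 1))
  have hn0 : (0 : ℝ) < n := lt_trans (by positivity) hn
  obtain ⟨d0, hd0, hd⟩ := Nn_small (Z := Z) (r := 1 / (16 * n * (K + 1))) (by positivity)
  set c := min d0 1 / 2 with hc
  have hm : 0 < min d0 1 := lt_min hd0 one_pos
  have hc0 : 0 < c := by positivity
  have hcd : c < d0 := by
    have := min_le_left d0 1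
    linarith
  have hc1 : c ≤ 1 := by
    have := min_le_right d0 1
    linarith
  refine ⟨c, hc0, fun L R s hL hR hLR => ?_⟩
  by_contra hs
  have hsn : 0 < ‖s‖ := norm_pos_iff.2 hs
  have hu : ∀ U : Z ≃ₗᵢ[ℝ] Z, Ps U (bd c) s = s → ‖U s - s‖ ≤ 1 / (4 * (K + 1)) * ‖s‖ := by
    intro U hU
    have h1 := landau U s (hd c hc0 hcd hc1 U s hU) n
    have h2 : (n : ℝ) ^ 2 * (2 * (1 / (16 * n * (K + 1)) * ‖s‖)) = n * (1 / (8 * (K + 1)) * ‖s‖) := by
      field_simp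
      ring
    rw [h2] at h1
    have h3 : 2 * ‖s‖ ≤ n * (1 / (8 * (K + 1)) * ‖s‖) := by
      have h4 : 2 * (8 * (K + 1)) ≤ n := by linarith
      have h5 : (n : ℝ) * (1 / (8 * (K + 1)) * ‖s‖) = n * ‖s‖ / (8 * (K + 1)) := by ring
      rw [h5, le_div_iff₀ (by positivity)]
      nlinarith
    have h4 : (n : ℝ) * ‖U s - s‖ ≤ n * (1 / (4 * (K + 1)) * ‖s‖) := by
      have h5 : (1 : ℝ) / (4 * (K + 1)) = 1 / (8 * (K + 1)) + 1 / (8 * (K + 1)) := by
        field_simp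
        norm_num
      rw [h5]
      linarith
    exact le_of_mul_le_mul_left h4 hn0
  have h1 := gam_apply (L * R) he s
  rw [hLR, zero_sub] at h1
  have h2 : ‖s‖ ≤ K * ‖Nn (L * R) s‖ := by
    rw [← norm_neg s, h1]
    refine (ContinuousLinearMap.le_opNorm _ _).trans ?_
    exact mul_le_mul_of_nonneg_right (Ps_norm _ (gam_contDiff he)) (norm_nonneg _)
  have h3 : ‖Nn (L * R) s‖ ≤ 1 / (2 * (K + 1)) * ‖s‖ := by
    refine (Nn_le _ _).trans ?_
    have h4 : (L * R) s - s = L (R s - s) + (L s - s) := by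
      show L (R s) - s = _
      rw [map_sub]
      abel
    rw [h4]
    refine (norm_add_le _ _).trans ?_
    rw [L.norm_map]
    have h5 := hu L hL
    have h6 := hu R hR
    have h7 : (1 : ℝ) / (2 * (K + 1)) = 1 / (4 * (K + 1)) + 1 / (4 * (K + 1)) := by
      field_simp
      norm_num
    rw [h7]
    linarith
  have h4 : ‖s‖ ≤ K * (1 / (2 * (K + 1)) * ‖s‖) := h2.trans (mul_le_mul_of_nonneg_left h3 hK0)
  have h5 : K * (1 / (2 * (K + 1)) * ‖s‖) ≤ 1 / 2 * ‖s‖ := by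
    have h6 : K * (1 / (2 * (K + 1)) * ‖s‖) = (K / (K + 1)) * (1 / 2 * ‖s‖) := by
      field_simp
    rw [h6]
    have h7 : K / (K + 1) ≤ 1 := by
      rw [div_le_one (by positivity)]
      linarith
    exact mul_le_of_le_one_left (by positivity) h7
  linarith

lemma cm_Ps {L R : Z ≃ₗᵢ[ℝ] Z} (h : Commute L R) {f g : ℝ → ℝ} (hf : ContDiff ℝ 2 f)
    (hg : ContDiff ℝ 2 g) : Ps L f * Ps R g = Ps R g * Ps L f := by
  refine Fop_comm_of R (sm hg) _ (fun k => ?_)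
  refine (Fop_comm_of L (sm hf) (op (R ^ k)) (fun l => ?_)).symm
  rw [← op_mul, ← op_mul]
  congr 1
  exact ((h.zpow_zpow l k).eq).symm

lemma bd_bd {e e' : ℝ} (he : 0 < e) (h : e ≤ e' / 2) (U : Z ≃ₗᵢ[ℝ] Z) :
    Ps U (bd e) * Ps U (bd e') = Ps U (bd e) := by
  rw [Ps_mul U (bd_contDiff e) (bd_contDiff e')]
  apply Ps_congr
  intro u _ _
  by_cases h1 : e ≤ |u - 1|
  · rw [bd_zero he h1, zero_mul]
  · push Not at h1
    rw [bd_one (e := e') (by linarith) (by linarith), mul_one]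

lemma bd_bd' {e e' : ℝ} (he : 0 < e) (h : e ≤ e' / 2) (U : Z ≃ₗᵢ[ℝ] Z) :
    Ps U (bd e') * Ps U (bd e) = Ps U (bd e) := by
  rw [Ps_comm U (bd_contDiff e') (bd_contDiff e), bd_bd he h U]

lemma Fop_at (U : Z ≃ₗᵢ[ℝ] Z) {c : ℤ → ℝ} (hc : Summable fun k => |c k|) (z : Z) :
    Fop U c z = ∑' k : ℤ, c k • (U ^ k) z := by
  unfold Fop
  exact (ContinuousLinearMap.apply ℝ Z z : (Z →L[ℝ] Z) →L[ℝ] Z).map_tsum (summable_term U hc)

end abstract

section conj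
variable {Y : Type*} [NormedAddCommGroup Y] [NormedSpace ℝ Y]

lemma norm_op_mul (T : Y ≃ₗᵢ[ℝ] Y) (a : Y →L[ℝ] Y) : ‖op T * a‖ = ‖a‖ := by
  apply le_antisymm
  · refine (norm_mul_le _ _).trans ?_
    exact mul_le_of_le_one_left (norm_nonneg _) (op_norm_le T)
  · have h1 : op T⁻¹ * (op T * a) = a := by
      rw [← mul_assoc, ← op_mul, inv_mul_cancel, op_one, one_mul]
    calc ‖a‖ = ‖op T⁻¹ * (op T * a)‖ := by rw [h1]
      _ ≤ ‖op T⁻¹‖ * ‖op T * a‖ := norm_mul_le _ _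
      _ ≤ _ := mul_le_of_le_one_left (norm_nonneg _) (op_norm_le _)

lemma norm_mul_op (T : Y ≃ₗᵢ[ℝ] Y) (a : Y →L[ℝ] Y) : ‖a * op T‖ = ‖a‖ := by
  apply le_antisymm
  · refine (norm_mul_le _ _).trans ?_
    exact mul_le_of_le_one_right (norm_nonneg _) (op_norm_le T)
  · have h1 : (a * op T) * op T⁻¹ = a := by
      rw [mul_assoc, ← op_mul, mul_inv_cancel, op_one, mul_one]
    calc ‖a‖ = ‖(a * op T) * op T⁻¹‖ := by rw [h1]
      _ ≤ ‖a * op T‖ * ‖op T⁻¹‖ := norm_mul_le _ _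
      _ ≤ _ := mul_le_of_le_one_right (norm_nonneg _) (op_norm_le _)

/-- left multiplication -/
noncomputable def Lm : (Y ≃ₗᵢ[ℝ] Y) →* ((Y →L[ℝ] Y) ≃ₗᵢ[ℝ] (Y →L[ℝ] Y)) where
  toFun T :=
    { toFun := fun a => op T * a
      invFun := fun a => op T⁻¹ * a
      map_add' := fun a b => mul_add _ _ _
      map_smul' := fun r a => mul_smul_comm _ _ _
      left_inv := fun a => by
        show op T⁻¹ * (op T * a) = a
        rw [← mul_assoc, ← op_mul, inv_mul_cancel, op_one, one_mul]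
      right_inv := fun a => by
        show op T * (op T⁻¹ * a) = a
        rw [← mul_assoc, ← op_mul, mul_inv_cancel, op_one, one_mul]
      norm_map' := fun a => norm_op_mul T a }
  map_one' := by
    apply LinearIsometryEquiv.ext
    intro a
    show op 1 * a = a
    rw [op_one, one_mul]
  map_mul' S T := by
    apply LinearIsometryEquiv.ext
    intro a
    show op (S * T) * a = op S * (op T * a)
    rw [op_mul, mul_assoc]

/-- right multiplication -/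
noncomputable def Rm : (Y ≃ₗᵢ[ℝ] Y) →* ((Y →L[ℝ] Y) ≃ₗᵢ[ℝ] (Y →L[ℝ] Y)) where
  toFun T :=
    { toFun := fun a => a * op T⁻¹
      invFun := fun a => a * op T
      map_add' := fun a b => add_mul _ _ _
      map_smul' := fun r a => smul_mul_assoc _ _ _
      left_inv := fun a => by
        show a * op T⁻¹ * op T = a
        rw [mul_assoc, ← op_mul, inv_mul_cancel, op_one, mul_one]
      right_inv := fun a => by
        show a * op T * op T⁻¹ = a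
        rw [mul_assoc, ← op_mul, mul_inv_cancel, op_one, mul_one]
      norm_map' := fun a => norm_mul_op T⁻¹ a }
  map_one' := by
    apply LinearIsometryEquiv.ext
    intro a
    show a * op (1⁻¹ : Y ≃ₗᵢ[ℝ] Y) = a
    rw [inv_one, op_one, mul_one]
  map_mul' S T := by
    apply LinearIsometryEquiv.ext
    intro a
    show a * op (S * T)⁻¹ = (a * op T⁻¹) * op S⁻¹
    rw [mul_inv_rev, op_mul, mul_assoc]

lemma Lm_apply (T : Y ≃ₗᵢ[ℝ] Y) (a : Y →L[ℝ] Y) : Lm T a = op T * a := rfl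

lemma Rm_apply (T : Y ≃ₗᵢ[ℝ] Y) (a : Y →L[ℝ] Y) : Rm T a = a * op T⁻¹ := rfl

lemma LR_comm (S T : Y ≃ₗᵢ[ℝ] Y) : Commute (Lm S) (Rm T) := by
  apply LinearIsometryEquiv.ext
  intro a
  show op S * (a * op T⁻¹) = (op S * a) * op T⁻¹
  rw [mul_assoc]

/-- conjugation -/
noncomputable def Ad (T : Y ≃ₗᵢ[ℝ] Y) : (Y →L[ℝ] Y) ≃ₗᵢ[ℝ] (Y →L[ℝ] Y) := Lm T * Rm T

lemma Ad_apply (T : Y ≃ₗᵢ[ℝ] Y) (a : Y →L[ℝ] Y) : Ad T a = op T * (a * op T⁻¹) := rfl

lemma Ad_zpow (T : Y ≃ₗᵢ[ℝ] Y) (k : ℤ) : Ad T ^ k = Ad (T ^ k) := by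
  unfold Ad
  rw [(LR_comm T T).mul_zpow, map_zpow, map_zpow]

variable [CompleteSpace Y]

lemma Ps_Lm (T : Y ≃ₗᵢ[ℝ] Y) {g : ℝ → ℝ} (hg : ContDiff ℝ 2 g) (a : Y →L[ℝ] Y) :
    Ps (Lm T) g a = Ps T g * a := by
  unfold Ps
  rw [Fop_at _ (sm hg)]
  unfold Fop
  rw [← (summable_term T (sm hg)).tsum_mul_right]
  refine tsum_congr (fun k => ?_)
  rw [← map_zpow, Lm_apply, smul_mul_assoc]

lemma Ps_Rm (T : Y ≃ₗᵢ[ℝ] Y) {g : ℝ → ℝ} (hg : ContDiff ℝ 2 g) (a : Y →L[ℝ] Y) :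
    Ps (Rm T) g a = a * Ps T g := by
  unfold Ps
  rw [Fop_at _ (sm hg)]
  unfold Fop
  rw [← (summable_term T (sm hg)).tsum_mul_left, ← (Equiv.neg ℤ).tsum_eq]
  refine tsum_congr (fun k => ?_)
  show cg g (-k) • (Rm T ^ (-k)) a = a * (cg g k • op (T ^ k))
  rw [← map_zpow, Rm_apply, mul_smul_comm, cg_neg, zpow_neg, inv_inv]

/-- the part of `B` away from the commutant -/
noncomputable def Dd (T : Y ≃ₗᵢ[ℝ] Y) (e : ℝ) (B : Y →L[ℝ] Y) : Y →L[ℝ] Y :=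
  B - Ps (Ad T) (bd e) B

lemma pDp (T : Y ≃ₗᵢ[ℝ] Y) {e : ℝ} (he : 0 < e) (B : Y →L[ℝ] Y) : ∃ c : ℝ, 0 < c ∧
    Ps T (bd c) * Dd T e B * Ps T (bd c) = 0 := by
  obtain ⟨c, hc, h⟩ := zero_of (Z := Y →L[ℝ] Y) (half_pos he)
  refine ⟨c / 2, half_pos hc, ?_⟩
  set p := Ps T (bd (c / 2)) with hp
  have h1 : Ps T (bd c) * p = p := bd_bd' (half_pos hc) le_rfl T
  have h2 : p * Ps T (bd c) = p := bd_bd (half_pos hc) le_rfl T
  apply h (Lm T) (Rm T) (p * Dd T e B * p)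
  · rw [Ps_Lm T (bd_contDiff c), ← mul_assoc, ← mul_assoc, h1]
  · rw [Ps_Rm T (bd_contDiff c), mul_assoc, h2]
  · have h3 : p * Dd T e B * p = Ps (Lm T) (bd (c / 2)) (Ps (Rm T) (bd (c / 2)) (Dd T e B)) := by
      rw [Ps_Rm T (bd_contDiff _), Ps_Lm T (bd_contDiff _), ← mul_assoc]
    have hcL : Commute (Lm T * Rm T) (Lm T) := (Commute.refl (Lm T)).mul_left (LR_comm T T).symm
    have hcR : Commute (Lm T * Rm T) (Rm T) := (LR_comm T T).mul_left (Commute.refl (Rm T))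
    have h4 := cm_Ps hcL (bd_contDiff (e / 2)) (bd_contDiff (c / 2))
    have h5 := cm_Ps hcR (bd_contDiff (e / 2)) (bd_contDiff (c / 2))
    have h6 : Ps (Lm T * Rm T) (bd (e / 2)) (Dd T e B) = 0 := by
      have h7 := bd_bd (half_pos he) le_rfl (Lm T * Rm T)
      have h8 := DFunLike.congr_fun h7 B
      have h9 : Ps (Lm T * Rm T) (bd (e / 2)) (Ps (Lm T * Rm T) (bd e) B) =
        Ps (Lm T * Rm T) (bd (e / 2)) B := h8
      show Ps (Lm T * Rm T) (bd (e / 2)) (B - Ps (Lm T * Rm T) (bd e) B) = 0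
      rw [map_sub, h9, sub_self]
    rw [h3]
    have h10 : ∀ z, Ps (Lm T * Rm T) (bd (e / 2)) (Ps (Lm T) (bd (c / 2)) z) =
      Ps (Lm T) (bd (c / 2)) (Ps (Lm T * Rm T) (bd (e / 2)) z) := fun z => DFunLike.congr_fun h4 z
    have h11 : ∀ z, Ps (Lm T * Rm T) (bd (e / 2)) (Ps (Rm T) (bd (c / 2)) z) =
      Ps (Rm T) (bd (c / 2)) (Ps (Lm T * Rm T) (bd (e / 2)) z) := fun z => DFunLike.congr_fun h5 z
    rw [h10, h11, h6, map_zero, map_zero]

end conj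

end Pool.Agent.U559.CP
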