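import Pool.Agent.U234.KM.Ultra
import Pool.Agent.U559.CP.Comm

/-!
# The ultrapower argument
-/

set_option autoImplicit false
set_option linter.unusedSectionVars false
set_option linter.style.haveILetI false

namespace Pool.Agent.U559.CP

open Filter Topology BoundedContinuousFunction Pool.Agent.U234.KM Pool.H590R3.Ab

variable {E : Type*} [NormedAddCommGroup E] [NormedSpace ℝ E]

/-- the ultrapower of an almost transitive space is transitive -/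
lemma tr_X {e : E} (he : ‖e‖ = 1)
    (htr : ∀ x y : E, ‖x‖ = 1 → ‖y‖ = 1 → ∀ ε : ℝ, 0 < ε → ∃ T : E ≃ₗᵢ[ℝ] E, ‖T x - y‖ < ε)
    (ξ ζ : X E) (hξ : ‖ξ‖ = 1) (hζ : ‖ζ‖ = 1) : ∃ T : X E ≃ₗᵢ[ℝ] X E, T ξ = ζ := by
  classical
  obtain ⟨f, rfl⟩ := cl_surj ξ
  obtain ⟨g, rfl⟩ := cl_surj ζ
  have hu : ∀ x : E, ∃ u : E, ‖u‖ = 1 ∧ x = ‖x‖ • u := by
    intro x
    by_cases hx : x = 0
    · exact ⟨e, he, by rw [hx, norm_zero, zero_smul]⟩
    · have h0 : ‖x‖ ≠ 0 := norm_ne_zero_iff.2 hx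
      refine ⟨‖x‖⁻¹ • x, ?_, ?_⟩
      · rw [norm_smul, norm_inv, norm_norm, inv_mul_cancel₀ h0]
      · rw [smul_smul, mul_inv_cancel₀ h0, one_smul]
  choose U hU1 hU2 using hu
  choose T hT using fun n : ℕ => htr (U (f n)) (U (g n)) (hU1 _) (hU1 _) (1 / ((n : ℝ) + 1))
    (by positivity)
  refine ⟨TX T, ?_⟩
  rw [TX_cl, cl_eq]
  have h1 : ∀ n, ‖TB T f n - g n‖ ≤ ‖f n‖ * (1 / ((n : ℝ) + 1)) + |‖f n‖ - ‖g n‖| := by
    intro n
    have h2 : TB T f n = ‖f n‖ • T n (U (f n)) := by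
      rw [TB_apply]
      conv_lhs => rw [hU2 (f n)]
      rw [map_smul]
    have h3 : TB T f n - g n = ‖f n‖ • (T n (U (f n)) - U (g n)) + (‖f n‖ - ‖g n‖) • U (g n) := by
      rw [h2, sub_smul, smul_sub, ← hU2 (g n)]
      abel
    rw [h3]
    refine (norm_add_le _ _).trans ?_
    rw [norm_smul, norm_norm, norm_smul, hU1, mul_one, Real.norm_eq_abs]
    exact add_le_add (mul_le_mul_of_nonneg_left (hT n).le (norm_nonneg _)) le_rfl
  have h4 := ((tendsto_norm f).sub (tendsto_norm g)).abs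
  rw [hξ, hζ, sub_self, abs_zero] at h4
  have h5 : Tendsto (fun n : ℕ => 1 / ((n : ℝ) + 1)) (hyperfilter ℕ : Filter ℕ) (𝓝 0) :=
    (tendsto_one_div_add_atTop_nhds_zero_nat (𝕜 := ℝ)).mono_left Nat.hyperfilter_le_atTop
  have h6 := ((tendsto_norm f).mul h5).add h4
  rw [hξ, mul_zero, add_zero] at h6
  exact squeeze_zero (fun n => norm_nonneg _) h1 h6

/-- operators on bounded sequences -/
noncomputable def OB (B : ℕ → E →L[ℝ] E) (hB : ∀ n, ‖B n‖ ≤ 1) : (ℕ →ᵇ E) →ₗ[ℝ] (ℕ →ᵇ E) where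
  toFun f := mkB (fun n => B n (f n)) ‖f‖ fun n => by
    calc ‖B n (f n)‖ ≤ ‖B n‖ * ‖f n‖ := (B n).le_opNorm _
      _ ≤ 1 * ‖f‖ := mul_le_mul (hB n) (f.norm_coe_le_norm n) (norm_nonneg _) zero_le_one
      _ = ‖f‖ := one_mul _
  map_add' f g := by
    ext n
    simp
  map_smul' c f := by
    ext n
    simp

lemma OB_apply (B : ℕ → E →L[ℝ] E) (hB : ∀ n, ‖B n‖ ≤ 1) (f : ℕ →ᵇ E) (n : ℕ) :
    OB B hB f n = B n (f n) := rfl

lemma OB_le (B : ℕ → E →L[ℝ] E) (hB : ∀ n, ‖B n‖ ≤ 1) (f : ℕ →ᵇ E) (n : ℕ) :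
    ‖OB B hB f n‖ ≤ ‖f n‖ :=
  ((B n).le_opNorm _).trans (mul_le_of_le_one_left (norm_nonneg _) (hB n))

/-- operators on the ultrapower -/
noncomputable def OX (B : ℕ → E →L[ℝ] E) (hB : ∀ n, ‖B n‖ ≤ 1) : X E →L[ℝ] X E :=
  LinearMap.mkContinuous ((Nul E).mapQ (Nul E) (OB B hB) (by
    intro f hf
    have hf' : Tendsto (fun n => ‖f n‖) (hyperfilter ℕ : Filter ℕ) (𝓝 0) := hf
    show Tendsto (fun n => ‖OB B hB f n‖) (hyperfilter ℕ : Filter ℕ) (𝓝 0)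
    exact squeeze_zero (fun n => norm_nonneg _) (OB_le B hB f) hf')) 1 (by
    intro ξ
    obtain ⟨f, rfl⟩ := cl_surj ξ
    rw [one_mul]
    show ‖cl (OB B hB f)‖ ≤ ‖cl f‖
    exact le_of_tendsto_of_tendsto' (tendsto_norm _) (tendsto_norm _) (OB_le B hB f))

lemma OX_cl (B : ℕ → E →L[ℝ] E) (hB : ∀ n, ‖B n‖ ≤ 1) (f : ℕ →ᵇ E) :
    OX B hB (cl f) = cl (OB B hB f) := rfl

lemma Sk_OX (B : ℕ → E →L[ℝ] E) (hB : ∀ n, ‖B n‖ ≤ 1)
    (h : ∀ t : ℝ, ∃ η : ℕ → ℝ, Tendsto η atTop (𝓝 0) ∧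
      ∀ n, ‖(1 : E →L[ℝ] E) + t • B n‖ ≤ 1 + t ^ 2 + η n) : Sk (OX B hB) := by
  have key : ∀ t : ℝ, ‖(1 : X E →L[ℝ] X E) + t • OX B hB‖ ≤ 1 + t ^ 2 := by
    intro t
    obtain ⟨η, hη, h1⟩ := h t
    refine ContinuousLinearMap.opNorm_le_bound _ (by positivity) (fun ξ => ?_)
    obtain ⟨f, rfl⟩ := cl_surj ξ
    have h2 : ((1 : X E →L[ℝ] X E) + t • OX B hB) (cl f) = cl (f + t • OB B hB f) := rfl
    rw [h2]
    have h3 : Tendsto (fun n => (1 + t ^ 2 + η n) * ‖f n‖) (hyperfilter ℕ : Filter ℕ)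
        (𝓝 ((1 + t ^ 2 + 0) * ‖cl f‖)) :=
      ((hη.mono_left (Nat.hyperfilter_le_atTop)).const_add _).mul (tendsto_norm f)
    rw [add_zero] at h3
    refine le_of_tendsto_of_tendsto' (tendsto_norm _) h3 (fun n => ?_)
    have h4 : (f + t • OB B hB f) n = ((1 : E →L[ℝ] E) + t • B n) (f n) := rfl
    rw [h4]
    exact (ContinuousLinearMap.le_opNorm _ _).trans
      (mul_le_mul_of_nonneg_right (h1 n) (norm_nonneg _))
  intro ε hε
  refine ⟨ε, hε, fun t ht => (key t).trans ?_⟩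
  have h1 : t ^ 2 = |t| * |t| := by rw [← abs_mul, ← sq, abs_of_nonneg (sq_nonneg t)]
  have h2 : |t| * |t| ≤ ε * |t| := mul_le_mul_of_nonneg_right ht (abs_nonneg t)
  linarith

lemma cpt_X {T : E ≃ₗᵢ[ℝ] E} (hT : IsCompactOperator (op T - 1 : E →L[ℝ] E)) :
    IsCompactOperator (op (TX fun _ : ℕ => T) - 1 : X E →L[ℝ] X E) := by
  have hK := hT.isCompact_closure_image_closedBall (𝕜₁ := ℝ) (σ₁₂ := RingHom.id ℝ)
    (f := ((op T - 1 : E →L[ℝ] E) : E →ₗ[ℝ] E)) 1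
  set S := closure (((op T - 1 : E →L[ℝ] E) : E →ₗ[ℝ] E) '' Metric.closedBall 0 1) with hS
  refine ⟨io '' S, hK.image io.continuous, ?_⟩
  refine Filter.mem_of_superset (Metric.ball_mem_nhds (0 : X E) one_pos) ?_
  intro ξ hξ
  rw [mem_ball_zero_iff] at hξ
  obtain ⟨m, hm, hmn⟩ := Submodule.Quotient.norm_mk_lt ξ (ε := 1 - ‖ξ‖) (by linarith)
  have hm1 : ‖m‖ ≤ 1 := by linarith
  have hmS : ∀ n, T (m n) - m n ∈ S := by
    intro n
    apply subset_closure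
    refine ⟨m n, ?_, rfl⟩
    rw [mem_closedBall_zero_iff]
    exact (m.norm_coe_le_norm n).trans hm1
  have h1 : ((((hyperfilter ℕ).map (fun n => T (m n) - m n) : Ultrafilter E)) : Filter E) ≤ 𝓟 S := by
    rw [le_principal_iff]
    show ∀ᶠ n in (hyperfilter ℕ : Filter ℕ), T (m n) - m n ∈ S
    exact Eventually.of_forall hmS
  obtain ⟨s, hs, hlim⟩ := isCompact_iff_ultrafilter_le_nhds.1 hK _ h1
  have hlim' : Tendsto (fun n => T (m n) - m n) (hyperfilter ℕ : Filter ℕ) (𝓝 s) := hlim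
  refine ⟨s, hs, ?_⟩
  have h2 : (op (TX fun _ : ℕ => T) - 1 : X E →L[ℝ] X E) ξ = cl (TB (fun _ => T) m - m) := by
    rw [← hm]
    rfl
  show io s = (op (TX fun _ : ℕ => T) - 1 : X E →L[ℝ] X E) ξ
  rw [h2, io_apply, cl_eq]
  have h3 : Tendsto (fun n => ‖s - (T (m n) - m n)‖) (hyperfilter ℕ : Filter ℕ) (𝓝 ‖s - s‖) :=
    (tendsto_const_nhds.sub hlim').norm
  rw [sub_self, norm_zero] at h3
  exact h3

lemma small_of_cpt [CompleteSpace E] (hE : ¬ FiniteDimensional ℝ E) {K : E →L[ℝ] E}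
    (hK : IsCompactOperator K) {ε : ℝ} (hε : 0 < ε) : ∃ x : E, ‖x‖ = 1 ∧ ‖K x‖ ≤ ε := by
  by_contra hcon
  push Not at hcon
  apply hE
  have h1 : ∀ x, ‖x‖ ≤ (Real.toNNReal ε⁻¹ : ℝ) * ‖K x‖ := by
    intro x
    rw [Real.coe_toNNReal _ (by positivity)]
    by_cases hx : x = 0
    · rw [hx, norm_zero]
      positivity
    · have hx' : 0 < ‖x‖ := norm_pos_iff.2 hx
      have h2 := hcon (‖x‖⁻¹ • x) (by rw [norm_smul, norm_inv, norm_norm, inv_mul_cancel₀ hx'.ne'])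
      rw [map_smul, norm_smul, norm_inv, norm_norm] at h2
      rw [lt_inv_mul_iff₀ hx'] at h2
      rw [inv_mul_eq_div, le_div_iff₀ hε]
      linarith
  have h2 : AntilipschitzWith (Real.toNNReal ε⁻¹) K := K.antilipschitz_of_bound h1
  have h3 : Topology.IsClosedEmbedding K := h2.isClosedEmbedding K.uniformContinuous
  have h4 := hK.isCompact_closure_image_closedBall (𝕜₁ := ℝ) (σ₁₂ := RingHom.id ℝ)
    (f := (K : E →ₗ[ℝ] E)) 1
  have h5 := h3.isCompact_preimage h4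
  have h6 : IsCompact (Metric.closedBall (0 : E) 1) :=
    h5.of_isClosed_subset Metric.isClosed_closedBall (fun v hv => subset_closure ⟨v, hv, rfl⟩)
  exact FiniteDimensional.of_isCompact_closedBall ℝ one_pos h6

/-! ### powers of an isometry close to the identity -/

lemma pow1 (g : E ≃ₗᵢ[ℝ] E) (n : ℕ) : ‖op (g ^ n) - 1‖ ≤ n * ‖op g - 1‖ := by
  induction n with
  | zero => simp [op_one]
  | succ n ih =>
    have h1 : op (g ^ (n + 1)) - 1 = op g * (op (g ^ n) - 1) + (op g - 1) := by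
      rw [pow_succ', op_mul, mul_sub, mul_one]
      abel
    rw [h1]
    refine (norm_add_le _ _).trans ?_
    have h2 : ‖op g * (op (g ^ n) - 1)‖ ≤ ‖op (g ^ n) - 1‖ :=
      (norm_mul_le _ _).trans (mul_le_of_le_one_left (norm_nonneg _) (op_norm_le g))
    push_cast
    linarith

lemma pow2 (g : E ≃ₗᵢ[ℝ] E) (n : ℕ) :
    ‖op (g ^ n) - 1 - (n : ℝ) • (op g - 1)‖ ≤ (n * ‖op g - 1‖) ^ 2 := by
  induction n with
  | zero => simp [op_one]
  | succ n ih =>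
    have h1 : op (g ^ (n + 1)) - 1 - ((n + 1 : ℕ) : ℝ) • (op g - 1) =
        (op (g ^ n) - 1 - (n : ℝ) • (op g - 1)) + (op (g ^ n) - 1) * (op g - 1) := by
      rw [pow_succ, op_mul, sub_mul, one_mul, mul_sub, mul_one]
      push_cast
      module
    rw [h1]
    refine (norm_add_le _ _).trans ?_
    have h2 : ‖(op (g ^ n) - 1) * (op g - 1)‖ ≤ n * ‖op g - 1‖ * ‖op g - 1‖ :=
      (norm_mul_le _ _).trans (mul_le_mul_of_nonneg_right (pow1 g n) (norm_nonneg _))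
    have h3 : 0 ≤ ‖op g - 1‖ := norm_nonneg _
    have h4 : (0 : ℝ) ≤ n := Nat.cast_nonneg n
    push_cast
    nlinarith [mul_nonneg h4 (mul_nonneg h3 h3), mul_nonneg h3 h3]

lemma est_pos (g : E ≃ₗᵢ[ℝ] E) (hδ : 0 < ‖op g - 1‖) {s : ℝ} (hs : 0 ≤ s) :
    ‖(1 : E →L[ℝ] E) + s • (‖op g - 1‖⁻¹ • (op g - 1))‖ ≤ 1 + s ^ 2 + ‖op g - 1‖ := by
  set δ := ‖op g - 1‖ with hδd
  set n := ⌊s / δ⌋₊ with hn
  have h1 : (n : ℝ) * δ ≤ s := by
    have := Nat.floor_le (div_nonneg hs hδ.le)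
    rwa [le_div_iff₀ hδ] at this
  have h2 : s < n * δ + δ := by
    have := Nat.lt_floor_add_one (s / δ)
    rw [div_lt_iff₀ hδ] at this
    linarith
  have h3 : (1 : E →L[ℝ] E) + s • (δ⁻¹ • (op g - 1)) =
      op (g ^ n) - (op (g ^ n) - 1 - (n : ℝ) • (op g - 1)) +
        (s - n * δ) • (δ⁻¹ • (op g - 1)) := by
    rw [sub_smul, smul_smul ((n : ℝ) * δ), mul_assoc, mul_inv_cancel₀ hδ.ne', mul_one]
    abel
  have h4 : ‖(s - n * δ) • (δ⁻¹ • (op g - 1))‖ ≤ δ := by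
    rw [norm_smul, norm_smul, norm_inv, Real.norm_of_nonneg hδ.le, ← hδd,
      inv_mul_cancel₀ hδ.ne', mul_one, Real.norm_of_nonneg (by linarith)]
    linarith
  have h5 := pow2 g n
  have h6 : ((n : ℝ) * δ) ^ 2 ≤ s ^ 2 := by
    have : 0 ≤ (n : ℝ) * δ := by positivity
    nlinarith
  rw [h3]
  refine (norm_add_le _ _).trans ?_
  have h7 : ‖op (g ^ n) - (op (g ^ n) - 1 - (n : ℝ) • (op g - 1))‖ ≤ 1 + s ^ 2 := by
    refine (norm_sub_le _ _).trans ?_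
    have := op_norm_le (g ^ n)
    linarith
  linarith

lemma inv_eq (g : E ≃ₗᵢ[ℝ] E) : op g⁻¹ - 1 = -(op g⁻¹ * (op g - 1)) := by
  rw [mul_sub, ← op_mul, inv_mul_cancel, op_one, mul_one, neg_sub]

lemma norm_inv_eq (g : E ≃ₗᵢ[ℝ] E) : ‖op g⁻¹ - 1‖ = ‖op g - 1‖ := by
  rw [inv_eq, norm_neg, norm_op_mul]

lemma est (g : E ≃ₗᵢ[ℝ] E) (hδ : 0 < ‖op g - 1‖) (t : ℝ) :
    ‖(1 : E →L[ℝ] E) + t • (‖op g - 1‖⁻¹ • (op g - 1))‖ ≤
      1 + t ^ 2 + (1 + |t|) * ‖op g - 1‖ := by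
  rcases le_total 0 t with ht | ht
  · have h1 := est_pos g hδ ht
    have h2 : 0 ≤ |t| * ‖op g - 1‖ := by positivity
    linarith
  · have h1 := est_pos g⁻¹ (by rw [norm_inv_eq]; exact hδ) (s := -t) (by linarith)
    rw [norm_inv_eq] at h1
    set δ := ‖op g - 1‖ with hδd
    have h3 : (1 : E →L[ℝ] E) + t • (δ⁻¹ • (op g - 1)) =
        ((1 : E →L[ℝ] E) + (-t) • (δ⁻¹ • (op g⁻¹ - 1))) + t • (δ⁻¹ • ((op g - 1) + (op g⁻¹ - 1))) := by
      module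
    have h4 : ‖(op g - 1) + (op g⁻¹ - 1)‖ ≤ δ * δ := by
      have h5 : (op g - 1) + (op g⁻¹ - 1) = (-(op g⁻¹ - 1)) * (op g - 1) := by
        rw [neg_mul, sub_mul, one_mul, inv_eq]
        abel
      rw [h5]
      refine (norm_mul_le _ _).trans ?_
      rw [norm_neg, norm_inv_eq]
    have h5 : ‖t • (δ⁻¹ • ((op g - 1) + (op g⁻¹ - 1)))‖ ≤ |t| * δ := by
      rw [norm_smul, norm_smul, norm_inv, Real.norm_of_nonneg hδ.le, Real.norm_eq_abs]
      refine mul_le_mul_of_nonneg_left ?_ (abs_nonneg t)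
      rw [inv_mul_le_iff₀ hδ]
      exact h4
    rw [h3]
    refine (norm_add_le _ _).trans ?_
    nlinarith

/-- small compact perturbations of the identity -/
theorem paral_small [CompleteSpace E] (hE : ¬ FiniteDimensional ℝ E)
    (htr : ∀ x y : E, ‖x‖ = 1 → ‖y‖ = 1 → ∀ ε : ℝ, 0 < ε → ∃ T : E ≃ₗᵢ[ℝ] E, ‖T x - y‖ < ε)
    (g : ℕ → E ≃ₗᵢ[ℝ] E) (hg1 : ∀ n, g n ≠ 1)
    (hgc : ∀ n, IsCompactOperator (op (g n) - 1 : E →L[ℝ] E))
    (hg0 : Tendsto (fun n => ‖op (g n) - 1‖) atTop (𝓝 0)) (x y : E) :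
    ‖x + y‖ ^ 2 + ‖x - y‖ ^ 2 = 2 * ‖x‖ ^ 2 + 2 * ‖y‖ ^ 2 := by
  haveI : Nontrivial E := Pool.Agent.TH596.RO.nontriv hE
  obtain ⟨e, he⟩ : ∃ e : E, ‖e‖ = 1 := exists_norm_eq E zero_le_one
  have hXE : ¬ FiniteDimensional ℝ (X E) := by
    intro h
    exact hE (FiniteDimensional.of_injective (io (E := E)).toLinearMap (io (E := E)).injective)
  have hδ : ∀ n, 0 < ‖op (g n) - 1‖ := by
    intro n
    rw [norm_pos_iff]
    intro h
    apply hg1 n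
    ext z
    have := DFunLike.congr_fun h z
    exact sub_eq_zero.1 this
  let B : ℕ → E →L[ℝ] E := fun n => ‖op (g n) - 1‖⁻¹ • (op (g n) - 1)
  have hBn : ∀ n, ‖B n‖ = 1 := by
    intro n
    show ‖‖op (g n) - 1‖⁻¹ • (op (g n) - 1)‖ = 1
    rw [norm_smul, norm_inv, norm_norm, inv_mul_cancel₀ (hδ n).ne']
  have hB : ∀ n, ‖B n‖ ≤ 1 := fun n => (hBn n).le
  have hSk : Sk (OX B hB) := by
    apply Sk_OX
    intro t
    refine ⟨fun n => (1 + |t|) * ‖op (g n) - 1‖, ?_, fun n => est (g n) (hδ n) t⟩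
    have := hg0.const_mul (1 + |t|)
    rwa [mul_zero] at this
  have hne : OX B hB ≠ 0 := by
    intro h
    have h1 : ∀ n, ∃ x : E, ‖x‖ < 1 ∧ 1 / 2 < ‖B n x‖ := fun n =>
      (B n).exists_lt_apply_of_lt_opNorm (by rw [hBn]; norm_num)
    choose u hu1 hu2 using h1
    have h2 := DFunLike.congr_fun h (cl (mkB u 1 fun n => (hu1 n).le))
    rw [OX_cl] at h2
    have h3 := tendsto_norm (OB B hB (mkB u 1 fun n => (hu1 n).le))
    rw [h2] at h3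
    have h4 : (1 / 2 : ℝ) ≤ ‖(0 : X E)‖ := ge_of_tendsto' h3 fun n => (hu2 n).le
    rw [norm_zero] at h4
    norm_num at h4
  have hcB : ∀ n, IsCompactOperator (B n) := fun n => (hgc n).smul (‖op (g n) - 1‖⁻¹)
  choose z hz1 hz2 using fun n : ℕ => small_of_cpt hE (hcB n) (ε := 1 / ((n : ℝ) + 1)) (by positivity)
  set ζ : X E := cl (mkB z 1 fun n => (hz1 n).le) with hζ
  have hζ1 : ‖ζ‖ = 1 := norm_cl_eq (by
    simp only [mkB_apply, hz1]
    exact tendsto_const_nhds)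
  have hζ0 : ζ ≠ 0 := by
    intro h
    rw [h, norm_zero] at hζ1
    exact zero_ne_one hζ1
  have hBζ : OX B hB ζ = 0 := by
    rw [← norm_eq_zero, hζ, OX_cl]
    apply norm_cl_eq
    refine squeeze_zero (fun n => norm_nonneg _) (fun n => hz2 n) ?_
    exact (tendsto_one_div_add_atTop_nhds_zero_nat (𝕜 := ℝ)).mono_left Nat.hyperfilter_le_atTop
  have hT1 : (TX fun _ : ℕ => g 0) ≠ 1 := by
    intro h
    apply hg1 0
    ext z
    have h1 : (TX fun _ : ℕ => g 0) (io z) = io (g 0 z) := by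
      rw [io_apply, TX_cl, io_apply, cl_eq]
      have h2 : ∀ n, ‖TB (fun _ : ℕ => g 0) (mkB (fun _ => z) ‖z‖ fun _ => le_rfl) n -
          (mkB (fun _ => g 0 z) ‖g 0 z‖ fun _ => le_rfl : ℕ →ᵇ E) n‖ = 0 := by
        intro n
        rw [TB_apply, mkB_apply, mkB_apply, sub_self, norm_zero]
      simp only [h2]
      exact tendsto_const_nhds
    rw [h] at h1
    exact (io (E := E)).injective h1.symm
  have h := paral_skew hXE (tr_X he htr) hT1 (cpt_X (hgc 0)) hSk hne hζ0 hBζ (io x) (io y)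
  rw [← map_add, ← map_sub, io.norm_map, io.norm_map, io.norm_map, io.norm_map] at h
  exact h

end Pool.Agent.U559.CP
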